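import Mathlib

set_option autoImplicit false

open Finset

namespace Pool.Agent.MP_60034d_an.H13

/-- `g` changes by at most one along every arc. -/
def ArcLip {V A : Type*} (tl hd : A → V) (g : V → ℝ) : Prop :=
  ∀ a, |g (tl a) - g (hd a)| ≤ 1

/-- Kantorovich duality: a bound on the pairing with arc-Lipschitz functions gives a flow. -/
lemma exists_flow {V A : Type*} [Fintype V] [Fintype A] (tl hd : A → V) (f : V → ℝ) (ν : ℝ)
    (hν : ∀ g, ArcLip tl hd g → ∑ v, f v * g v ≤ ν) :
    ∃ φ : A → ℝ, ∑ a, |φ a| ≤ ν ∧ ∀ g : V → ℝ, ∑ v, f v * g v = ∑ a, φ a * (g (tl a) - g (hd a)) := by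
  classical
  have hν0 : 0 ≤ ν := by simpa using hν 0 (fun a => by simp)
  let D : (V → ℝ) →ₗ[ℝ] (A → ℝ) :=
    { toFun := fun g a => g (tl a) - g (hd a)
      map_add' := fun g h => by ext a; simp; ring
      map_smul' := fun c g => by ext a; simp; ring }
  let L : (V → ℝ) →ₗ[ℝ] ℝ :=
    { toFun := fun g => ∑ v, f v * g v
      map_add' := fun g h => by simp [mul_add, Finset.sum_add_distrib]
      map_smul' := fun c g => by simp [Finset.mul_sum, mul_left_comm] }
  have hscale : ∀ (g : V → ℝ) (t : ℝ), 0 < t → ‖D g‖ ≤ t → L g ≤ ν * t := by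
    intro g t ht hg
    have h1 : ArcLip tl hd (t⁻¹ • g) := by
      intro a
      have h2 : |g (tl a) - g (hd a)| ≤ t := by
        have := (norm_le_pi_norm (D g) a).trans hg
        simpa [D] using this
      simp only [Pi.smul_apply, smul_eq_mul]
      rw [← mul_sub, abs_mul, abs_of_pos (inv_pos.2 ht), inv_mul_le_iff₀ ht]
      simpa using h2
    have h3 : L (t⁻¹ • g) ≤ ν := hν _ h1
    rw [map_smul, smul_eq_mul, inv_mul_le_iff₀ ht] at h3
    linarith
  have hbound : ∀ g : V → ℝ, L g ≤ ν * ‖D g‖ := by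
    intro g
    refine le_of_forall_pos_le_add (fun ε hε => ?_)
    have h1 := hscale g (‖D g‖ + ε / (ν + 1)) (by positivity) (by
      have : 0 < ε / (ν + 1) := by positivity
      linarith)
    have h2 : ν * (ε / (ν + 1)) ≤ ε := by
      rw [← mul_div_assoc, div_le_iff₀ (by positivity)]
      nlinarith
    nlinarith
  have hker : LinearMap.ker D ≤ LinearMap.ker L := by
    intro g hg
    rw [LinearMap.mem_ker] at hg ⊢
    have h1 := hbound g
    have h2 := hbound (-g)
    rw [map_neg, map_neg] at h2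
    rw [hg] at h1 h2
    simp at h1 h2
    linarith
  let F : LinearMap.range D →ₗ[ℝ] ℝ :=
    ((LinearMap.ker D).liftQ L hker).comp (LinearMap.quotKerEquivRange D).symm.toLinearMap
  have hF : ∀ g : V → ℝ, F ⟨D g, LinearMap.mem_range_self D g⟩ = L g := by
    intro g
    simp only [F, LinearMap.comp_apply, LinearEquiv.coe_toLinearMap]
    rw [LinearMap.quotKerEquivRange_symm_apply_image]
    simp
  obtain ⟨Ψ, hΨ1, hΨ2⟩ := exists_extension_of_le_sublinear
    (⟨LinearMap.range D, F⟩ : (A → ℝ) →ₗ.[ℝ] ℝ) (fun ω => ν * ‖ω‖)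
    (fun c hc x => by rw [norm_smul, Real.norm_of_nonneg hc.le]; ring)
    (fun x y => by have := norm_add_le x y; nlinarith)
    (by
      rintro ⟨_, g, rfl⟩
      exact (hF g).trans_le (hbound g))
  have hrep : ∀ ω : A → ℝ, Ψ ω = ∑ a, Ψ (fun j => if a = j then 1 else 0) * ω a := by
    intro ω
    rw [LinearMap.pi_apply_eq_sum_univ Ψ ω]
    exact Finset.sum_congr rfl (fun a _ => by rw [smul_eq_mul, mul_comm])
  refine ⟨fun a => Ψ (fun j => if a = j then 1 else 0), ?_, fun g => ?_⟩
  · set φ : A → ℝ := fun a => Ψ (fun j => if a = j then 1 else 0) with hφ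
    have h1 := hΨ2 (fun a => if 0 ≤ φ a then 1 else -1)
    rw [hrep] at h1
    have h2 : ‖(fun a => if 0 ≤ φ a then (1 : ℝ) else -1)‖ ≤ 1 := by
      refine (pi_norm_le_iff_of_nonneg zero_le_one).2 (fun a => ?_)
      split_ifs <;> simp
    have h3 : ∑ a, |φ a| = ∑ a, φ a * (if 0 ≤ φ a then (1 : ℝ) else -1) := by
      refine Finset.sum_congr rfl (fun a _ => ?_)
      split_ifs with h
      · rw [abs_of_nonneg h]; ring
      · rw [abs_of_neg (not_le.1 h)]; ring
    rw [h3]
    refine h1.trans ?_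
    nlinarith
  · have h1 := hΨ1 ⟨D g, LinearMap.mem_range_self D g⟩
    have h2 : Ψ (D g) = L g := h1.trans (hF g)
    rw [hrep] at h2
    exact h2.symm

/-- Maximum principle for the killed chain. -/
lemma chain_max {V : Type*} [Fintype V] (p : V → V) (κ : V → ℝ) (h0 : ∀ v, 0 < κ v)
    (h1 : ∀ v, κ v ≤ 1) (z : V → ℝ) (hz : ∀ v, (1 - κ v) * z (p v) ≤ z v) : ∀ v, 0 ≤ z v := by
  intro v
  obtain ⟨w, -, hw⟩ := Finset.exists_min_image Finset.univ z ⟨v, Finset.mem_univ v⟩
  have h2 := hw (p w) (Finset.mem_univ _)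
  have h3 := hz w
  have h4 : 0 ≤ z w := by
    by_contra h
    push Not at h
    have := h0 w
    have := h1 w
    nlinarith
  exact h4.trans (hw v (Finset.mem_univ _))

/-- The Green kernel of the killed chain. -/
lemma exists_green {V : Type*} [Fintype V] (p : V → V) (κ : V → ℝ) (h0 : ∀ v, 0 < κ v)
    (h1 : ∀ v, κ v ≤ 1) :
    ∃ u : V → V → ℝ,
      (∀ (z : V → ℝ) x, ∑ v, u x v * z v = z x + (1 - κ x) * ∑ v, u (p x) v * z v) ∧
      (∀ (g : V → ℝ) x, ∑ v, u x v * (g v - (1 - κ v) * g (p v)) = g x) := by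
  classical
  let L : (V → ℝ) →ₗ[ℝ] (V → ℝ) :=
    { toFun := fun z x => z x - (1 - κ x) * z (p x)
      map_add' := fun g h => by ext a; simp; ring
      map_smul' := fun c g => by ext a; simp; ring }
  have hinj : Function.Injective L := by
    rw [← LinearMap.ker_eq_bot, LinearMap.ker_eq_bot']
    intro z hz
    have e : ∀ x, z x - (1 - κ x) * z (p x) = 0 := fun x => congrFun hz x
    have a1 := chain_max p κ h0 h1 z (fun v => by linarith [e v])
    have a2 := chain_max p κ h0 h1 (fun v => - z v) (fun v => by linarith [e v])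
    ext x
    have := a1 x
    have := a2 x
    simp only [Pi.zero_apply]
    linarith
  have hbij : Function.Bijective L := ⟨hinj, LinearMap.injective_iff_surjective.1 hinj⟩
  let U := (LinearEquiv.ofBijective L hbij).symm
  have hrep : ∀ (z : V → ℝ) x, ∑ v, U (fun j => if v = j then 1 else 0) x * z v = U z x := by
    intro z x
    have := LinearMap.pi_apply_eq_sum_univ U.toLinearMap z
    simp only [LinearEquiv.coe_toLinearMap] at this
    rw [this, Finset.sum_apply]
    exact Finset.sum_congr rfl (fun a _ => by rw [Pi.smul_apply, smul_eq_mul, mul_comm])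
  refine ⟨fun x v => U (fun j => if v = j then 1 else 0) x, fun z x => ?_, fun g x => ?_⟩
  · rw [hrep, hrep]
    have : L (U z) = z := (LinearEquiv.ofBijective L hbij).apply_symm_apply z
    have h2 : U z x - (1 - κ x) * U z (p x) = z x := congrFun this x
    linarith
  · rw [hrep]
    have : U (L g) = g := (LinearEquiv.ofBijective L hbij).symm_apply_apply g
    exact congrFun this x

end Pool.Agent.MP_60034d_an.H13
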