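import Mathlib
import Pool.Agent.MP_60034d_an.H13.Dual

set_option autoImplicit false

open Finset

namespace Pool.Agent.MP_60034d_an.H13

open Classical in
lemma exists_median {V : Type*} [Fintype V] (g : V → ℝ) :
    ∃ m : ℝ, 2 * (Finset.univ.filter (fun v => m < g v)).card ≤ Fintype.card V ∧
      2 * (Finset.univ.filter (fun v => g v < m)).card ≤ Fintype.card V := by
  rcases isEmpty_or_nonempty V with hV | hV
  · exact ⟨0, by simp, by simp⟩
  let T : Finset V :=
    Finset.univ.filter (fun w => 2 * (Finset.univ.filter (fun v => g w < g v)).card ≤ Fintype.card V)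
  have hT : T.Nonempty := by
    obtain ⟨w, -, hw⟩ := Finset.exists_max_image Finset.univ g Finset.univ_nonempty
    refine ⟨w, Finset.mem_filter.2 ⟨Finset.mem_univ _, ?_⟩⟩
    have : Finset.univ.filter (fun v => g w < g v) = ∅ :=
      Finset.filter_eq_empty_iff.2 (fun v hv => not_lt.2 (hw v hv))
    simp [this]
  obtain ⟨w, hwT, hw⟩ := Finset.exists_min_image T g hT
  refine ⟨g w, (Finset.mem_filter.1 hwT).2, ?_⟩
  rcases (Finset.univ.filter (fun v => g v < g w)).eq_empty_or_nonempty with h | h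
  · simp [h]
  obtain ⟨w', hw'mem, hw'⟩ := Finset.exists_max_image _ g h
  have hlt : g w' < g w := (Finset.mem_filter.1 hw'mem).2
  have hnot : w' ∉ T := fun hh => absurd (hw w' hh) (not_le.2 hlt)
  have h1 : Fintype.card V < 2 * (Finset.univ.filter (fun v => g w' < g v)).card := by
    by_contra hc
    exact hnot (Finset.mem_filter.2 ⟨Finset.mem_univ _, not_lt.1 hc⟩)
  have h2 : (Finset.univ.filter (fun v => g v < g w)).card
      + (Finset.univ.filter (fun v => g w' < g v)).card ≤ Fintype.card V := by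
    rw [← Finset.card_union_of_disjoint]
    · exact Finset.card_le_univ _
    · rw [Finset.disjoint_left]
      intro v hv hv'
      exact absurd (hw' v hv) (not_le.2 (Finset.mem_filter.1 hv').2)
  omega

open Classical in
/-- One-sided expansion: every set of at most half the vertices has many leaving arcs. -/
def Expands {V A : Type*} [Fintype V] [Fintype A] (tl hd : A → V) : Prop :=
  ∀ S : Finset V, 2 * S.card ≤ Fintype.card V →
    S.card ≤ (Finset.univ.filter (fun a => tl a ∈ S ∧ hd a ∉ S)).card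

open Classical in
/-- Every vertex is the value of `h` on at most `d` arcs. -/
def FibLe {V A : Type*} [Fintype A] (h : A → V) (d : ℕ) : Prop :=
  ∀ v, (Finset.univ.filter (fun a => h a = v)).card ≤ d

open Classical in
lemma FibLe.sum_le {V A : Type*} [Fintype V] [Fintype A] {h : A → V} {d : ℕ} (hd : FibLe h d)
    (E : V → ℝ) (hE : ∀ v, 0 ≤ E v) : ∑ a, E (h a) ≤ d * ∑ v, E v := by
  rw [← Finset.sum_fiberwise Finset.univ h, Finset.mul_sum]
  refine Finset.sum_le_sum (fun v _ => ?_)
  rw [Finset.sum_congr rfl (g := fun _ => E v) (fun a ha => by rw [(Finset.mem_filter.1 ha).2])]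
  rw [Finset.sum_const, nsmul_eq_mul]
  exact mul_le_mul_of_nonneg_right (by exact_mod_cast hd v) (hE v)

open Classical in
lemma FibLe.card_le {V A : Type*} [Fintype V] [Fintype A] {h : A → V} {d : ℕ} (hd : FibLe h d)
    (S : Finset V) : (Finset.univ.filter (fun a => h a ∈ S)).card ≤ d * S.card := by
  have := hd.sum_le (fun v => if v ∈ S then (1 : ℝ) else 0) (fun v => by positivity)
  simp only [Finset.sum_boole] at this
  have e : Finset.univ.filter (fun v => v ∈ S) = S := by ext; simp
  rw [e] at this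
  exact_mod_cast this

open Classical in
lemma level_decay {V A : Type*} [Fintype V] [Fintype A] (tl hd : A → V) (d : ℕ)
    (hhd : FibLe hd d) (hE : Expands tl hd) (g : V → ℝ) (hg : ArcLip tl hd g)
    (h0 : 2 * (Finset.univ.filter (fun v => 0 < g v)).card ≤ Fintype.card V) (j : ℕ) :
    (d + 1) ^ j * (Finset.univ.filter (fun v => (j : ℝ) < g v)).card ≤ d ^ j * Fintype.card V := by
  induction j with
  | zero => simpa using Finset.card_le_univ _
  | succ j ih =>
    set S1 := Finset.univ.filter (fun v => ((j + 1 : ℕ) : ℝ) < g v) with hS1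
    set S0 := Finset.univ.filter (fun v => (j : ℝ) < g v) with hS0
    have hsub : S1 ⊆ S0 := by
      intro v hv
      have := (Finset.mem_filter.1 hv).2
      push_cast at this
      exact Finset.mem_filter.2 ⟨Finset.mem_univ _, by linarith⟩
    have hsub0 : S1 ⊆ Finset.univ.filter (fun v => 0 < g v) := by
      intro v hv
      have := (Finset.mem_filter.1 hv).2
      exact Finset.mem_filter.2 ⟨Finset.mem_univ _, lt_of_le_of_lt (Nat.cast_nonneg _) this⟩
    have h1 := hE S1 (le_trans (Nat.mul_le_mul_left 2 (Finset.card_le_card hsub0)) h0)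
    have h2 : (Finset.univ.filter (fun a => tl a ∈ S1 ∧ hd a ∉ S1)).card
        ≤ (Finset.univ.filter (fun a => hd a ∈ S0 \ S1)).card := by
      apply Finset.card_le_card
      intro a ha
      obtain ⟨ha1, ha2⟩ := (Finset.mem_filter.1 ha).2
      refine Finset.mem_filter.2 ⟨Finset.mem_univ _, Finset.mem_sdiff.2 ⟨?_, ha2⟩⟩
      have h3 := (Finset.mem_filter.1 ha1).2
      have h4 := (abs_le.1 (hg a)).2
      push_cast at h3
      exact Finset.mem_filter.2 ⟨Finset.mem_univ _, by linarith⟩
    have h3 := hhd.card_le (S0 \ S1)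
    have h4 : (S0 \ S1).card + S1.card = S0.card := Finset.card_sdiff_add_card_eq_card hsub
    have h5 : (d + 1) * S1.card ≤ d * S0.card := by
      rw [← h4]
      have : S1.card ≤ d * (S0 \ S1).card := h1.trans (h2.trans h3)
      nlinarith
    calc (d + 1) ^ (j + 1) * S1.card = (d + 1) ^ j * ((d + 1) * S1.card) := by ring
      _ ≤ (d + 1) ^ j * (d * S0.card) := Nat.mul_le_mul_left _ h5
      _ = d * ((d + 1) ^ j * S0.card) := by ring
      _ ≤ d * (d ^ j * Fintype.card V) := Nat.mul_le_mul_left _ ih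
      _ = _ := by ring

open Classical in
lemma exp_moment_one {V A : Type*} [Fintype V] [Fintype A] (tl hd : A → V) (d : ℕ)
    (hhd : FibLe hd d) (hE : Expands tl hd) (g : V → ℝ) (hg : ArcLip tl hd g)
    (h0 : 2 * (Finset.univ.filter (fun v => 0 < g v)).card ≤ Fintype.card V)
    (β : ℝ) (hβ : 0 < β) (hr : Real.exp β * (d / (d + 1)) < 1) :
    ∑ v, Real.exp (β * g v)
      ≤ (1 + Real.exp β * (1 - Real.exp β * (d / (d + 1)))⁻¹) * Fintype.card V := by
  set ρ := Real.exp β with hρ
  have hρ0 : 0 < ρ := Real.exp_pos _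
  set r : ℝ := ρ * (d / (d + 1)) with hrdef
  have hr0 : 0 ≤ r := by positivity
  obtain ⟨J, hJ⟩ : ∃ J : ℕ, ∀ v, ⌈g v⌉₊ ≤ J :=
    ⟨Finset.univ.sup (fun v => ⌈g v⌉₊), fun v => Finset.le_sup (f := fun v => ⌈g v⌉₊) (Finset.mem_univ v)⟩
  have hpt : ∀ v, Real.exp (β * g v)
      ≤ 1 + ∑ i ∈ Finset.range J, ρ ^ (i + 1) * (if (i : ℝ) < g v then 1 else 0) := by
    intro v
    have hs : 0 ≤ ∑ i ∈ Finset.range J, ρ ^ (i + 1) * (if (i : ℝ) < g v then 1 else 0) :=
      Finset.sum_nonneg (fun i _ => by positivity)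
    by_cases hv : g v ≤ 0
    · have : Real.exp (β * g v) ≤ 1 := Real.exp_le_one_iff.2 (by nlinarith)
      linarith
    · push Not at hv
      have hc : 0 < ⌈g v⌉₊ := Nat.ceil_pos.2 hv
      obtain ⟨i, hi⟩ : ∃ i, ⌈g v⌉₊ = i + 1 := ⟨⌈g v⌉₊ - 1, by omega⟩
      have h1 : (i : ℝ) < g v := Nat.lt_ceil.1 (by omega)
      have h2 : g v ≤ (i + 1 : ℕ) := hi ▸ Nat.le_ceil _
      have h3 : Real.exp (β * g v) ≤ ρ ^ (i + 1) := by
        rw [hρ, ← Real.exp_nat_mul]
        exact Real.exp_le_exp.2 (by nlinarith)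
      have h4 : ρ ^ (i + 1) * (if (i : ℝ) < g v then 1 else 0)
          ≤ ∑ i ∈ Finset.range J, ρ ^ (i + 1) * (if (i : ℝ) < g v then 1 else 0) :=
        Finset.single_le_sum (f := fun i : ℕ => ρ ^ (i + 1) * (if (i : ℝ) < g v then 1 else 0))
          (fun i _ => by positivity) (Finset.mem_range.2 (by have := hJ v; omega))
      rw [if_pos h1] at h4
      linarith
  have hlev : ∀ i : ℕ, ρ ^ (i + 1) * ((Finset.univ.filter (fun v => (i : ℝ) < g v)).card : ℝ)
      ≤ ρ * r ^ i * Fintype.card V := by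
    intro i
    have h1 : ((d : ℝ) + 1) ^ i * ((Finset.univ.filter (fun v => (i : ℝ) < g v)).card : ℝ)
        ≤ (d : ℝ) ^ i * Fintype.card V := by exact_mod_cast level_decay tl hd d hhd hE g hg h0 i
    have h2 : ((Finset.univ.filter (fun v => (i : ℝ) < g v)).card : ℝ)
        ≤ (d / (d + 1)) ^ i * Fintype.card V := by
      rw [div_pow, div_mul_eq_mul_div, le_div_iff₀ (by positivity)]
      linarith
    calc _ ≤ ρ ^ (i + 1) * ((d / (d + 1)) ^ i * Fintype.card V) := by gcongr
      _ = _ := by rw [hrdef, mul_pow]; ring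
  have hgeo : ∑ i ∈ Finset.range J, r ^ i ≤ (1 - r)⁻¹ := by
    rw [← tsum_geometric_of_lt_one hr0 hr]
    exact (summable_geometric_of_lt_one hr0 hr).sum_le_tsum _ (fun i _ => by positivity)
  calc ∑ v, Real.exp (β * g v)
      ≤ ∑ v : V, (1 + ∑ i ∈ Finset.range J, ρ ^ (i + 1) * (if (i : ℝ) < g v then 1 else 0)) :=
        Finset.sum_le_sum (fun v _ => hpt v)
    _ = Fintype.card V + ∑ i ∈ Finset.range J,
          ρ ^ (i + 1) * ((Finset.univ.filter (fun v => (i : ℝ) < g v)).card : ℝ) := by
        rw [Finset.sum_add_distrib, Finset.sum_comm]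
        simp_rw [← Finset.mul_sum, Finset.sum_boole]
        simp
    _ ≤ Fintype.card V + ∑ i ∈ Finset.range J, ρ * r ^ i * Fintype.card V := by
        have := Finset.sum_le_sum (s := Finset.range J) (fun i _ => hlev i)
        linarith
    _ = Fintype.card V + ρ * (∑ i ∈ Finset.range J, r ^ i) * Fintype.card V := by
        rw [Finset.mul_sum, Finset.sum_mul]
    _ ≤ Fintype.card V + ρ * (1 - r)⁻¹ * Fintype.card V := by gcongr
    _ = _ := by ring

open Classical in
/-- Exponential concentration of Lipschitz functions on expanders. -/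
lemma exp_moment (d : ℕ) : ∃ β : ℝ, 0 < β ∧ ∃ K : ℝ, 0 ≤ K ∧
    ∀ (V A : Type) [Fintype V] [Fintype A] (tl hd : A → V), FibLe hd d → Expands tl hd →
      ∀ g : V → ℝ, ArcLip tl hd g →
        ∃ m : ℝ, ∑ v, Real.cosh (β * (g v - m)) ≤ K * Fintype.card V := by
  have hr : Real.exp (1 / (2 * (d + 1) : ℝ)) * (d / (d + 1)) < 1 := by
    have h1 : (d : ℝ) / (d + 1) ≤ Real.exp (-(1 / (d + 1))) := by
      have := Real.add_one_le_exp (-(1 / ((d : ℝ) + 1)))
      have e : (d : ℝ) / (d + 1) = -(1 / ((d : ℝ) + 1)) + 1 := by field_simp; ring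
      rw [e]; exact this
    calc _ ≤ Real.exp (1 / (2 * (d + 1) : ℝ)) * Real.exp (-(1 / (d + 1))) := by gcongr
      _ = Real.exp (-(1 / (2 * (d + 1)))) := by
          rw [← Real.exp_add]; congr 1; field_simp; ring
      _ < 1 := Real.exp_lt_one_iff.2 (by
          have : (0 : ℝ) < 1 / (2 * (d + 1)) := by positivity
          linarith)
  set β : ℝ := 1 / (2 * (d + 1) : ℝ) with hβdef
  have hβ : 0 < β := by positivity
  refine ⟨β, hβ, 1 + Real.exp β * (1 - Real.exp β * (d / (d + 1)))⁻¹, ?_, ?_⟩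
  · have : 0 < 1 - Real.exp β * (d / (d + 1)) := by linarith
    positivity
  intro V A _ _ tl hd hhd hE g hg
  obtain ⟨m, hm1, hm2⟩ := exists_median g
  have a1 := exp_moment_one tl hd d hhd hE (fun v => g v - m)
    (fun a => by simpa using hg a) (by simpa using hm1) β hβ hr
  have a2 := exp_moment_one tl hd d hhd hE (fun v => m - g v)
    (fun a => by
      have := hg a
      rw [abs_sub_comm] at this
      have e : m - g (tl a) - (m - g (hd a)) = g (hd a) - g (tl a) := by ring
      simpa only [e] using this) (by simpa using hm2) β hβ hr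
  refine ⟨m, ?_⟩
  have e : ∑ v, Real.cosh (β * (g v - m))
      = (∑ v, Real.exp (β * (g v - m)) + ∑ v, Real.exp (β * (m - g v))) / 2 := by
    rw [← Finset.sum_add_distrib, Finset.sum_div]
    refine Finset.sum_congr rfl (fun v _ => ?_)
    rw [Real.cosh_eq]
    congr 3; ring
  rw [e]
  linarith

end Pool.Agent.MP_60034d_an.H13
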