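import Mathlib

set_option autoImplicit false

open Finset

namespace Pool.Agent.MP_60034d_an.H13

/-- The sign attached to an index and a subset. -/
noncomputable def sg {ι : Type*} [DecidableEq ι] (s : Finset ι) (i : ι) : ℝ :=
  if i ∈ s then 1 else -1

lemma sg_sq {ι : Type*} [DecidableEq ι] (s : Finset ι) (i : ι) : sg s i ^ 2 = 1 := by
  unfold sg; split_ifs <;> norm_num

lemma abs_sg {ι : Type*} [DecidableEq ι] (s : Finset ι) (i : ι) : |sg s i| = 1 := by
  unfold sg; split_ifs <;> norm_num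

/-- Riesz product. -/
noncomputable def riesz {ι : Type*} [Fintype ι] [DecidableEq ι] (a : ι → ℝ) (s : Finset ι) : ℂ :=
  ∏ j, (1 + Complex.I * (a j * sg s j : ℝ))

lemma norm_riesz_le {ι : Type*} [Fintype ι] [DecidableEq ι] (a : ι → ℝ) (s : Finset ι)
    (ha : ∑ j, a j ^ 2 ≤ 1) : ‖riesz a s‖ ≤ 2 := by
  have h1 : ∀ j, ‖(1 + Complex.I * (a j * sg s j : ℝ) : ℂ)‖ ≤ Real.exp (a j ^ 2 / 2) := by
    intro j
    have h2 : ‖(1 + Complex.I * (a j * sg s j : ℝ) : ℂ)‖ ^ 2 = 1 + a j ^ 2 := by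
      rw [Complex.sq_norm, Complex.normSq_apply]
      simp only [Complex.add_re, Complex.one_re, Complex.mul_re, Complex.I_re, Complex.ofReal_re,
        Complex.I_im, Complex.ofReal_im, Complex.add_im, Complex.one_im, Complex.mul_im]
      have := sg_sq s j
      nlinarith
    have h3 : 1 + a j ^ 2 ≤ Real.exp (a j ^ 2 / 2) ^ 2 := by
      rw [← Real.exp_nat_mul]
      have := Real.add_one_le_exp (a j ^ 2)
      have e : ((2 : ℕ) : ℝ) * (a j ^ 2 / 2) = a j ^ 2 := by push_cast; ring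
      rw [e]; linarith
    exact abs_le_of_sq_le_sq' (by rw [h2]; exact h3) (Real.exp_pos _).le |>.2
  unfold riesz
  rw [norm_prod]
  calc ∏ j, ‖(1 + Complex.I * (a j * sg s j : ℝ) : ℂ)‖ ≤ ∏ j, Real.exp (a j ^ 2 / 2) :=
        Finset.prod_le_prod (fun j _ => norm_nonneg _) (fun j _ => h1 j)
    _ = Real.exp (∑ j, a j ^ 2 / 2) := (Real.exp_sum _ _).symm
    _ ≤ Real.exp (1 / 2) := by
        apply Real.exp_le_exp.2
        rw [← Finset.sum_div]; linarith
    _ ≤ 2 := by
        have h : Real.exp (1 / 2) ^ 2 = Real.exp 1 := by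
          rw [← Real.exp_nat_mul]; norm_num
        have h2 := Real.exp_one_lt_d9
        have h3 := Real.exp_pos (1 / 2)
        nlinarith

lemma sum_sg_riesz {ι : Type*} [Fintype ι] [DecidableEq ι] (a : ι → ℝ) (i : ι) :
    ∑ s : Finset ι, (sg s i : ℂ) * riesz a s = 2 ^ Fintype.card ι * (Complex.I * a i) := by
  have key := Fintype.prod_add
    (fun j => (1 + Complex.I * (a j : ℂ)))
    (fun j => (if j = i then (-1 : ℂ) else 1) * (1 - Complex.I * (a j : ℂ)))
  have hR : ∀ s : Finset ι, (sg s i : ℂ) * riesz a s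
      = (∏ j ∈ s, (1 + Complex.I * (a j : ℂ))) *
        ∏ j ∈ sᶜ, (if j = i then (-1 : ℂ) else 1) * (1 - Complex.I * (a j : ℂ)) := by
    intro s
    unfold riesz
    rw [← Finset.prod_mul_prod_compl s, Finset.prod_mul_distrib, Finset.prod_ite_eq']
    have e1 : ∏ j ∈ s, (1 + Complex.I * (a j * sg s j : ℝ) : ℂ)
        = ∏ j ∈ s, (1 + Complex.I * (a j : ℂ)) := by
      refine Finset.prod_congr rfl (fun j hj => ?_)
      simp [sg, hj]
    have e2 : ∏ j ∈ sᶜ, (1 + Complex.I * (a j * sg s j : ℝ) : ℂ)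
        = ∏ j ∈ sᶜ, (1 - Complex.I * (a j : ℂ)) := by
      refine Finset.prod_congr rfl (fun j hj => ?_)
      have : j ∉ s := by simpa using hj
      simp [sg, this, sub_eq_add_neg]
    rw [e1, e2]
    by_cases hi : i ∈ s
    · simp [sg, hi]
    · simp [sg, hi]
  simp_rw [hR]
  rw [← key, ← Finset.mul_prod_erase Finset.univ _ (Finset.mem_univ i)]
  have e3 : ∏ j ∈ Finset.univ.erase i, ((1 + Complex.I * (a j : ℂ)) +
      (if j = i then (-1 : ℂ) else 1) * (1 - Complex.I * (a j : ℂ))) = 2 ^ (Fintype.card ι - 1) := by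
    rw [Finset.prod_congr rfl (g := fun _ => (2 : ℂ))]
    · simp [Finset.card_erase_of_mem]
    · intro j hj
      have : j ≠ i := (Finset.mem_erase.1 hj).1
      simp only [this, if_false]; ring
  rw [e3]
  have hc : Fintype.card ι = (Fintype.card ι - 1) + 1 := by
    have : 0 < Fintype.card ι := Fintype.card_pos_iff.2 ⟨i⟩
    omega
  conv_rhs => rw [hc, pow_succ]
  simp only [if_true]; ring

/-- Dual form of the lower Khintchine inequality in `L¹`. -/
lemma khin_one {ι : Type*} [Fintype ι] [DecidableEq ι] (a x : ι → ℝ) (ha : ∑ j, a j ^ 2 ≤ 1) :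
    2 ^ Fintype.card ι * ∑ i, a i * x i ≤ 2 * ∑ s : Finset ι, |∑ i, sg s i * x i| := by
  have h1 : ∀ i, ∑ s : Finset ι, sg s i * (riesz a s).im = 2 ^ Fintype.card ι * a i := by
    intro i
    have := congrArg Complex.im (sum_sg_riesz a i)
    rw [Complex.im_sum] at this
    have e : ((2 : ℂ) ^ Fintype.card ι) = ((2 ^ Fintype.card ι : ℝ) : ℂ) := by push_cast; rfl
    rw [e] at this
    simpa only [Complex.mul_im, Complex.ofReal_re, Complex.ofReal_im, zero_mul, add_zero,
      Complex.I_re, Complex.I_im, one_mul, zero_add, mul_zero] using this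
  calc 2 ^ Fintype.card ι * ∑ i, a i * x i
      = ∑ i, (∑ s : Finset ι, sg s i * (riesz a s).im) * x i := by
        rw [Finset.mul_sum]
        refine Finset.sum_congr rfl (fun i _ => ?_)
        rw [h1]; ring
    _ = ∑ s : Finset ι, (riesz a s).im * ∑ i, sg s i * x i := by
        simp_rw [Finset.sum_mul, Finset.mul_sum]
        rw [Finset.sum_comm]
        refine Finset.sum_congr rfl (fun s _ => Finset.sum_congr rfl (fun i _ => by ring))
    _ ≤ ∑ s : Finset ι, 2 * |∑ i, sg s i * x i| := by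
        refine Finset.sum_le_sum (fun s _ => ?_)
        refine (le_abs_self _).trans ?_
        rw [abs_mul]
        exact mul_le_mul_of_nonneg_right
          ((Complex.abs_im_le_norm _).trans (norm_riesz_le a s ha)) (abs_nonneg _)
    _ = _ := by rw [Finset.mul_sum]

lemma khin {ι : Type*} [Fintype ι] [DecidableEq ι] (a x : ι → ℝ) (w : ℝ) (hw : 0 < w)
    (ha : ∑ j, a j ^ 2 ≤ w ^ 2) :
    2 ^ Fintype.card ι * ∑ i, a i * x i ≤ 2 * w * ∑ s : Finset ι, |∑ i, sg s i * x i| := by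
  have h := khin_one (fun j => a j / w) x (by
    simp_rw [div_pow]
    rw [← Finset.sum_div, div_le_one (by positivity)]
    exact ha)
  have e : ∑ i, a i / w * x i = (∑ i, a i * x i) / w := by
    rw [Finset.sum_div]; exact Finset.sum_congr rfl (fun i _ => by ring)
  rw [e, ← mul_div_assoc, div_le_iff₀ hw] at h
  linarith

/-- Exponential moments pass to square functions. -/
lemma cosh_sqrt_le {ι : Type*} [Fintype ι] (c g : ι → ℝ) (hc : ∑ i, c i ^ 2 = 1) (β : ℝ) :
    Real.cosh (β * Real.sqrt (∑ i, c i ^ 2 * g i ^ 2)) ≤ ∑ i, c i ^ 2 * Real.cosh (β * g i) := by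
  have hY : 0 ≤ ∑ i, c i ^ 2 * g i ^ 2 := Finset.sum_nonneg (fun i _ => by positivity)
  have h1 := Real.hasSum_cosh (β * Real.sqrt (∑ i, c i ^ 2 * g i ^ 2))
  have h2 : HasSum (fun k : ℕ => ∑ i, c i ^ 2 * ((β * g i) ^ (2 * k) / ((2 * k).factorial : ℝ)))
      (∑ i, c i ^ 2 * Real.cosh (β * g i)) :=
    hasSum_sum (fun i _ => (Real.hasSum_cosh (β * g i)).mul_left _)
  refine hasSum_le (fun k => ?_) h1 h2
  have h3 := Real.pow_arith_mean_le_arith_mean_pow Finset.univ (fun i => c i ^ 2) (fun i => g i ^ 2)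
    (fun i _ => by positivity) hc (fun i _ => by positivity) k
  have e1 : (β * Real.sqrt (∑ i, c i ^ 2 * g i ^ 2)) ^ (2 * k)
      = (β ^ 2) ^ k * (∑ i, c i ^ 2 * g i ^ 2) ^ k := by
    rw [mul_pow, pow_mul, pow_mul, Real.sq_sqrt hY]
  have e2 : ∑ i, c i ^ 2 * ((β * g i) ^ (2 * k) / ((2 * k).factorial : ℝ))
      = ((β ^ 2) ^ k * ∑ i, c i ^ 2 * (g i ^ 2) ^ k) / ((2 * k).factorial : ℝ) := by
    rw [Finset.mul_sum, Finset.sum_div]
    refine Finset.sum_congr rfl (fun i _ => ?_)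
    rw [mul_pow, pow_mul, pow_mul]; ring
  rw [e1, e2]
  gcongr

end Pool.Agent.MP_60034d_an.H13
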