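import Mathlib

set_option autoImplicit false

open Finset

namespace Pool.Agent.MP_60034d_an.H13

open Classical in
/-- Number of arcs with both ends in `S`. -/
noncomputable def inner {V A : Type*} [Fintype A] (tl hd : A → V) (S : Finset V) : ℕ :=
  (Finset.univ.filter (fun a => tl a ∈ S ∧ hd a ∈ S)).card

open Classical in
/-- Hall's theorem with dummy vertices: a parent map covering almost all arcs at every level. -/
lemma hall_step {V A : Type*} [Fintype V] [Fintype A] (tl hd : A → V) (τ : V → ℕ)
    (hτ : ∀ v, 1 ≤ τ v) (C1 : ℕ)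
    (hsp : ∀ (k : ℕ) (S : Finset V), (∀ v ∈ S, k ≤ τ v) →
      k * inner tl hd S ≤ k * S.card + C1 * (Finset.univ.filter (fun v => k ≤ τ v)).card) :
    ∃ (p : V → V) (F : Finset A),
      (∀ v, p v = v ∨ ∃ a, (tl a = v ∧ hd a = p v) ∨ (hd a = v ∧ tl a = p v)) ∧
      (∀ a ∈ F, p (tl a) = hd a ∨ p (hd a) = tl a) ∧
      ∀ k : ℕ, k * (Finset.univ.filter (fun a => a ∉ F ∧ min (τ (tl a)) (τ (hd a)) = k)).card
        ≤ C1 * (Finset.univ.filter (fun v => k ≤ τ v)).card := by
  let N : ℕ → ℕ := fun k => C1 * (Finset.univ.filter (fun v => k ≤ τ v)).card / k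
  let l : A → ℕ := fun a => min (τ (tl a)) (τ (hd a))
  let t : A → Finset (V ⊕ ℕ) := fun a => ({tl a, hd a} : Finset V).disjSum (Finset.range (N (l a)))
  have hHall : ∀ B : Finset A, B.card ≤ (B.biUnion t).card := by
    intro B
    rcases B.eq_empty_or_nonempty with rfl | hB
    · simp
    obtain ⟨a0, ha0, hmin⟩ := Finset.exists_min_image B l hB
    set k := l a0 with hk
    have hk1 : 1 ≤ k := le_min (hτ _) (hτ _)
    let S : Finset V := B.image tl ∪ B.image hd
    have hS : ∀ v ∈ S, k ≤ τ v := by
      intro v hv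
      rcases Finset.mem_union.1 hv with hv | hv
      · obtain ⟨a, ha, rfl⟩ := Finset.mem_image.1 hv
        exact (hmin a ha).trans (min_le_left _ _)
      · obtain ⟨a, ha, rfl⟩ := Finset.mem_image.1 hv
        exact (hmin a ha).trans (min_le_right _ _)
    have h1 : B.card ≤ inner tl hd S := by
      apply Finset.card_le_card
      intro a ha
      simp only [Finset.mem_filter, Finset.mem_univ, true_and]
      exact ⟨Finset.mem_union_left _ (Finset.mem_image_of_mem _ ha),
        Finset.mem_union_right _ (Finset.mem_image_of_mem _ ha)⟩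
    have h2 := hsp k S hS
    have h3 : B.card ≤ S.card + N k := by
      have h4 : (B.card - S.card) * k ≤ C1 * (Finset.univ.filter (fun v => k ≤ τ v)).card := by
        have h5 : k * B.card ≤ k * inner tl hd S := Nat.mul_le_mul_left _ h1
        rw [Nat.sub_mul, mul_comm B.card, mul_comm S.card]
        omega
      have h6 : B.card - S.card ≤ N k := (Nat.le_div_iff_mul_le hk1).2 h4
      omega
    have h7 : S.disjSum (Finset.range (N k)) ⊆ B.biUnion t := by
      rintro (v | x) hx
      · rw [Finset.inl_mem_disjSum] at hx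
        rcases Finset.mem_union.1 hx with hv | hv
        · obtain ⟨a, ha, rfl⟩ := Finset.mem_image.1 hv
          exact Finset.mem_biUnion.2 ⟨a, ha, by simp [t]⟩
        · obtain ⟨a, ha, rfl⟩ := Finset.mem_image.1 hv
          exact Finset.mem_biUnion.2 ⟨a, ha, by simp [t]⟩
      · rw [Finset.inr_mem_disjSum] at hx
        exact Finset.mem_biUnion.2 ⟨a0, ha0, by simpa [t] using hx⟩
    have h8 := Finset.card_le_card h7
    rw [Finset.card_disjSum, Finset.card_range] at h8
    omega
  obtain ⟨o, hoinj, ho⟩ := (Finset.all_card_le_biUnion_card_iff_exists_injective t).1 hHall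
  let p : V → V := fun v =>
    if h : ∃ a, o a = Sum.inl v then (if tl h.choose = v then hd h.choose else tl h.choose) else v
  have hp : ∀ a v, o a = Sum.inl v → p v = if tl a = v then hd a else tl a := by
    intro a v hav
    have h : ∃ a, o a = Sum.inl v := ⟨a, hav⟩
    have e : h.choose = a := hoinj (h.choose_spec.trans hav.symm)
    simp only [p, dif_pos h, e]
  have hmem : ∀ a v, o a = Sum.inl v → v = tl a ∨ v = hd a := by
    intro a v hav
    have := ho a
    rw [hav] at this
    simpa [t] using this
  refine ⟨p, Finset.univ.filter (fun a => ∃ v, o a = Sum.inl v), fun v => ?_, fun a ha => ?_,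
    fun k => ?_⟩
  · by_cases h : ∃ a, o a = Sum.inl v
    · obtain ⟨a, ha⟩ := h
      right
      refine ⟨a, ?_⟩
      rw [hp a v ha]
      by_cases h1 : tl a = v
      · left; simp [h1]
      · right
        rcases hmem a v ha with h2 | h2
        · exact absurd h2.symm h1
        · simp [h1, h2.symm]
    · left; simp only [p, dif_neg h]
  · obtain ⟨v, hv⟩ := (Finset.mem_filter.1 ha).2
    have h1 := hp a v hv
    by_cases h2 : tl a = v
    · left; rw [h2, h1]; simp [h2]
    · right
      rcases hmem a v hv with h3 | h3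
      · exact absurd h3.symm h2
      · rw [← h3, h1]; simp [h2]
  · have h1 : (Finset.univ.filter (fun a => a ∉ Finset.univ.filter (fun a => ∃ v, o a = Sum.inl v)
        ∧ min (τ (tl a)) (τ (hd a)) = k)).card ≤ ((Finset.range (N k)).image
          (Sum.inr : ℕ → V ⊕ ℕ)).card := by
      refine Finset.card_le_card_of_injOn o (fun a ha => ?_) (fun a _ b _ hab => hoinj hab)
      have ha' := (Finset.mem_filter.1 (Finset.mem_coe.1 ha)).2
      obtain ⟨h2, h3⟩ := ha'
      have h4 := ho a
      rcases h5 : o a with v | x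
      · exact absurd (Finset.mem_filter.2 ⟨Finset.mem_univ _, v, h5⟩) h2
      · rw [h5] at h4
        have h6 : x ∈ Finset.range (N (l a)) := by simpa [t] using h4
        have h7 : l a = k := h3
        rw [h7] at h6
        exact Finset.mem_coe.2 (Finset.mem_image_of_mem _ h6)
    have h2 : ((Finset.range (N k)).image (Sum.inr : ℕ → V ⊕ ℕ)).card ≤ N k :=
      Finset.card_image_le.trans (by simp)
    calc _ ≤ k * N k := Nat.mul_le_mul_left _ (h1.trans h2)
      _ ≤ _ := Nat.mul_div_le _ _

end Pool.Agent.MP_60034d_an.H13
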