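import Mathlib
import Pool.Agent.MP_60034d_an.H13.Conc
import Pool.Agent.MP_60034d_an.H13.HallStep

set_option autoImplicit false

open Finset

namespace Pool.Agent.MP_60034d_an.H13

/-- Small sets span few arcs, at every scale. -/
def Sparse {V A : Type*} [Fintype V] [Fintype A] (tl hd : A → V) (C0 : ℕ) : Prop :=
  ∀ (k : ℕ) (S : Finset V), 2 ^ k * S.card ≤ Fintype.card V →
    k * inner tl hd S ≤ (k + C0) * S.card

open Classical in
lemma inner_le {V A : Type*} [Fintype V] [Fintype A] (tl hd : A → V) (d : ℕ) (htl : FibLe tl d)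
    (S : Finset V) : inner tl hd S ≤ d * S.card := by
  refine le_trans ?_ (htl.card_le S)
  apply Finset.card_le_card
  intro a ha
  exact Finset.mem_filter.2 ⟨Finset.mem_univ _, (Finset.mem_filter.1 ha).2.1⟩

open Classical in
lemma level_sparse {V A : Type*} [Fintype V] [Fintype A] (tl hd : A → V) (d C0 k0 : ℕ)
    (htl : FibLe tl d) (hsp : Sparse tl hd C0) (τ : V → ℕ)
    (hsum : ∑ v, 2 ^ τ v ≤ 2 ^ k0 * Fintype.card V) (k : ℕ) (S : Finset V)
    (hS : ∀ v ∈ S, k ≤ τ v) :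
    k * inner tl hd S ≤ k * S.card
      + (C0 + k0 * d) * (Finset.univ.filter (fun v => k ≤ τ v)).card := by
  have h1 : S.card ≤ (Finset.univ.filter (fun v => k ≤ τ v)).card :=
    Finset.card_le_card (fun v hv => Finset.mem_filter.2 ⟨Finset.mem_univ _, hS v hv⟩)
  have h2 := inner_le tl hd d htl S
  have h3 : (C0 + k0 * d) * S.card ≤ (C0 + k0 * d) * (Finset.univ.filter (fun v => k ≤ τ v)).card :=
    Nat.mul_le_mul_left _ h1
  have h4 : k0 * inner tl hd S ≤ k0 * (d * S.card) := Nat.mul_le_mul_left _ h2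
  rcases le_or_gt k k0 with hk | hk
  · have h5 : k * inner tl hd S ≤ k0 * inner tl hd S := Nat.mul_le_mul_right _ hk
    nlinarith [Nat.zero_le (k * S.card), Nat.zero_le (C0 * S.card)]
  · obtain ⟨j, rfl⟩ : ∃ j, k = k0 + j := ⟨k - k0, by omega⟩
    have h5 : 2 ^ (k0 + j) * S.card ≤ ∑ v, 2 ^ τ v := by
      calc 2 ^ (k0 + j) * S.card = ∑ v ∈ S, 2 ^ (k0 + j) := by simp [mul_comm]
        _ ≤ ∑ v ∈ S, 2 ^ τ v :=
          Finset.sum_le_sum (fun v hv => Nat.pow_le_pow_right (by norm_num) (hS v hv))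
        _ ≤ ∑ v, 2 ^ τ v := Finset.sum_le_sum_of_subset (Finset.subset_univ _)
    have h6 : 2 ^ j * S.card ≤ Fintype.card V := by
      have h7 : 2 ^ k0 * (2 ^ j * S.card) ≤ 2 ^ k0 * Fintype.card V := by
        rw [← mul_assoc, ← pow_add]; exact h5.trans hsum
      exact Nat.le_of_mul_le_mul_left h7 (by positivity)
    have h8 := hsp j S h6
    nlinarith [Nat.zero_le (k0 * S.card)]

open Classical in
lemma sum_level_le {V A : Type*} [Fintype V] [Fintype A] (τ : V → ℕ) (l : A → ℕ) (F : Finset A)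
    (C1 : ℕ)
    (h : ∀ k : ℕ, k * (Finset.univ.filter (fun a => a ∉ F ∧ l a = k)).card
      ≤ C1 * (Finset.univ.filter (fun v => k ≤ τ v)).card) :
    ∑ a, (if a ∈ F then 0 else l a * 2 ^ l a) ≤ 2 * C1 * ∑ v, 2 ^ τ v := by
  obtain ⟨J, hJ⟩ : ∃ J : ℕ, ∀ a, l a < J :=
    ⟨Finset.univ.sup l + 1, fun a => Nat.lt_succ_of_le (Finset.le_sup (Finset.mem_univ a))⟩
  have e1 : ∑ a, (if a ∈ F then 0 else l a * 2 ^ l a)
      = ∑ k ∈ Finset.range J, 2 ^ k * (k * (Finset.univ.filter (fun a => a ∉ F ∧ l a = k)).card) := by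
    have e2 : ∀ a, (if a ∈ F then 0 else l a * 2 ^ l a)
        = ∑ k ∈ Finset.range J, (if a ∉ F ∧ l a = k then 2 ^ k * k else 0) := by
      intro a
      by_cases ha : a ∈ F
      · simp [ha]
      · simp [ha, hJ a, mul_comm]
    simp_rw [e2]
    rw [Finset.sum_comm]
    refine Finset.sum_congr rfl (fun k _ => ?_)
    rw [← Finset.sum_filter, Finset.sum_const, smul_eq_mul]
    ring
  have e3 : ∀ v, ∑ k ∈ Finset.range J, (if k ≤ τ v then 2 ^ k else 0) ≤ 2 * 2 ^ τ v := by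
    intro v
    rw [← Finset.sum_filter]
    calc ∑ k ∈ (Finset.range J).filter (fun k => k ≤ τ v), 2 ^ k
        ≤ ∑ k ∈ Finset.range (τ v + 1), 2 ^ k := by
          apply Finset.sum_le_sum_of_subset
          intro k hk
          exact Finset.mem_range.2 (Nat.lt_succ_of_le (Finset.mem_filter.1 hk).2)
      _ ≤ 2 * 2 ^ τ v := by
          rw [Nat.geomSum_eq (le_refl 2)]
          simp [pow_succ, mul_comm]
  calc _ = _ := e1
    _ ≤ ∑ k ∈ Finset.range J, 2 ^ k * (C1 * (Finset.univ.filter (fun v => k ≤ τ v)).card) :=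
        Finset.sum_le_sum (fun k _ => Nat.mul_le_mul_left _ (h k))
    _ = C1 * ∑ v, ∑ k ∈ Finset.range J, (if k ≤ τ v then 2 ^ k else 0) := by
        rw [Finset.sum_comm, Finset.mul_sum]
        refine Finset.sum_congr rfl (fun k _ => ?_)
        rw [← Finset.sum_filter, Finset.sum_const, smul_eq_mul]
        ring
    _ ≤ C1 * ∑ v, 2 * 2 ^ τ v := Nat.mul_le_mul_left _ (Finset.sum_le_sum (fun v _ => e3 v))
    _ = _ := by rw [← Finset.mul_sum]; ring

lemma one_add_mul_two_pow_le (a b : ℕ) :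
    (1 + ((b - a : ℕ) : ℝ)) * 2 ^ a ≤ 2 ^ a + 2 ^ b := by
  rcases le_total b a with h | h
  · rw [Nat.sub_eq_zero_of_le h]
    have : (0 : ℝ) < 2 ^ b := by positivity
    simp [this.le]
  · obtain ⟨j, rfl⟩ := Nat.exists_eq_add_of_le h
    have h1 : (j : ℝ) ≤ 2 ^ j := by exact_mod_cast (Nat.lt_two_pow_self (n := j)).le
    rw [Nat.add_sub_cancel_left, pow_add]
    have : (0 : ℝ) < 2 ^ a := by positivity
    nlinarith

open Classical in
/-- The killed chain along the parent map and the cost of its test functions. -/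
lemma test_fun {V A : Type*} [Fintype V] [Fintype A] (tl hd : A → V) (d C0 k0 : ℕ)
    (htl : FibLe tl d) (hhd : FibLe hd d) (hsp : Sparse tl hd C0) (τ : V → ℕ) (hτ : ∀ v, 1 ≤ τ v)
    (hsum : ∑ v, 2 ^ τ v ≤ 2 ^ k0 * Fintype.card V) (B : ℝ) (hB : 0 ≤ B) :
    ∃ (p : V → V) (κ : V → ℝ) (u : V → V → ℝ) (W : A → ℝ),
      (∀ g : V → ℝ, ArcLip tl hd g → ∀ v, |g v - g (p v)| ≤ 1) ∧
      (∀ v, 0 < κ v) ∧ (∀ v, κ v ≤ 1) ∧
      (∀ (g : V → ℝ) x, ∑ v, u x v * (g v - (1 - κ v) * g (p v)) = g x) ∧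
      (∀ z : V → ℝ, (∀ v, |z v| ≤ 1 + κ v * (B * τ v)) → ∀ a,
        2 ^ min (τ (tl a)) (τ (hd a)) * |∑ v, u (tl a) v * z v - ∑ v, u (hd a) v * z v| ≤ W a) ∧
      ∑ a, W a ≤ ((8 * B + 4) * (2 * d) + (2 * B + 1) * (4 * (C0 + k0 * d))) * 2 ^ k0
        * Fintype.card V := by
  obtain ⟨p, F, hp, hF, hcount⟩ := hall_step tl hd τ hτ (C0 + k0 * d)
    (level_sparse tl hd d C0 k0 htl hsp τ hsum)
  let Δ : V → ℝ := fun v => ((τ (p v) - τ v : ℕ) : ℝ)
  have hΔ0 : ∀ v, 0 ≤ Δ v := fun v => Nat.cast_nonneg _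
  have hΔ : ∀ v, (τ (p v) : ℝ) ≤ τ v + Δ v := by
    intro v
    have : τ (p v) ≤ τ v + (τ (p v) - τ v) := by omega
    show (τ (p v) : ℝ) ≤ τ v + ((τ (p v) - τ v : ℕ) : ℝ)
    exact_mod_cast this
  have hτ' : ∀ v, (1 : ℝ) ≤ τ v := fun v => by exact_mod_cast hτ v
  let κ : V → ℝ := fun v => min 1 (2 * (1 + Δ v) / τ v)
  have hκ0 : ∀ v, 0 < κ v := fun v => lt_min one_pos (by
    have := hΔ0 v; have := hτ' v; positivity)
  have hκ1 : ∀ v, κ v ≤ 1 := fun v => min_le_left _ _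
  have hκ2 : ∀ v, κ v * τ v ≤ 2 * (1 + Δ v) := by
    intro v
    have h1 : κ v ≤ 2 * (1 + Δ v) / τ v := min_le_right _ _
    rwa [le_div_iff₀ (by linarith [hτ' v])] at h1
  have hκ3 : ∀ v, κ v = 1 ∨ κ v * τ v = 2 * (1 + Δ v) := by
    intro v
    rcases min_choice (1 : ℝ) (2 * (1 + Δ v) / τ v) with h | h
    · exact Or.inl h
    · right
      have h' : κ v = 2 * (1 + Δ v) / τ v := h
      rw [h', div_mul_cancel₀]
      linarith [hτ' v]
  obtain ⟨u, hu1, hu2⟩ := exists_green p κ hκ0 hκ1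
  have hsuper : ∀ v, 1 + κ v * (B * τ v) + (1 - κ v) * ((2 * B + 1) * τ (p v))
      ≤ (2 * B + 1) * τ v := by
    intro v
    have a1 := hΔ v
    have a2 := hΔ0 v
    have a3 := hτ' v
    have a4 := hκ0 v
    have a5 := hκ1 v
    rcases hκ3 v with h | h
    · rw [h]; nlinarith
    · have a6 : (1 - κ v) * ((2 * B + 1) * τ (p v)) ≤ (1 - κ v) * ((2 * B + 1) * (τ v + Δ v)) := by
        apply mul_le_mul_of_nonneg_left _ (by linarith)
        exact mul_le_mul_of_nonneg_left a1 (by linarith)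
      have a7 : 0 ≤ κ v * ((2 * B + 1) * Δ v) := by positivity
      have a8 : κ v * (B * τ v) = B * (2 * (1 + Δ v)) := by rw [← h]; ring
      have a9 : κ v * ((2 * B + 1) * τ v) = (2 * B + 1) * (2 * (1 + Δ v)) := by rw [← h]; ring
      nlinarith [mul_nonneg hB a2]
  have hU : ∀ z : V → ℝ, (∀ v, |z v| ≤ 1 + κ v * (B * τ v)) →
      ∀ x, |∑ v, u x v * z v| ≤ (2 * B + 1) * τ x := by
    intro z hz x
    have b1 := chain_max p κ hκ0 hκ1 (fun x => (2 * B + 1) * τ x - ∑ v, u x v * z v) (fun x => by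
      have := hu1 z x
      have := hsuper x
      have := (abs_le.1 (hz x)).2
      nlinarith) x
    have b2 := chain_max p κ hκ0 hκ1 (fun x => (2 * B + 1) * τ x + ∑ v, u x v * z v) (fun x => by
      have := hu1 z x
      have := hsuper x
      have := (abs_le.1 (hz x)).1
      nlinarith) x
    exact abs_le.2 ⟨by linarith, by linarith⟩
  have hstep : ∀ z : V → ℝ, (∀ v, |z v| ≤ 1 + κ v * (B * τ v)) → ∀ x,
      2 ^ τ x * |∑ v, u x v * z v - ∑ v, u (p x) v * z v|
        ≤ (8 * B + 4) * (2 ^ τ x + 2 ^ τ (p x)) := by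
    intro z hz x
    have c1 : ∑ v, u x v * z v - ∑ v, u (p x) v * z v = z x - κ x * ∑ v, u (p x) v * z v := by
      rw [hu1 z x]; ring
    have c2 : |z x - κ x * ∑ v, u (p x) v * z v| ≤ (8 * B + 4) * (1 + Δ x) := by
      have a1 := hΔ x
      have a2 := hΔ0 x
      have a3 := hκ2 x
      have a4 := hκ0 x
      have a5 := hκ1 x
      have a6 : |κ x * ∑ v, u (p x) v * z v| ≤ κ x * ((2 * B + 1) * (τ x + Δ x)) := by
        rw [abs_mul, abs_of_pos a4]
        refine mul_le_mul_of_nonneg_left ((hU z hz (p x)).trans ?_) a4.le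
        exact mul_le_mul_of_nonneg_left a1 (by linarith)
      have a7 := abs_sub (z x) (κ x * ∑ v, u (p x) v * z v)
      have a8 := hz x
      have a9 : κ x * (B * τ x) ≤ B * (2 * (1 + Δ x)) := by
        rw [mul_left_comm]; exact mul_le_mul_of_nonneg_left a3 hB
      have a10 : κ x * ((2 * B + 1) * τ x) ≤ (2 * B + 1) * (2 * (1 + Δ x)) := by
        rw [mul_left_comm]; exact mul_le_mul_of_nonneg_left a3 (by linarith)
      have a11 : κ x * ((2 * B + 1) * Δ x) ≤ (2 * B + 1) * Δ x := by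
        have : 0 ≤ (2 * B + 1) * Δ x := by positivity
        nlinarith
      nlinarith [mul_nonneg hB a2]
    have c3 := one_add_mul_two_pow_le (τ x) (τ (p x))
    rw [c1]
    calc 2 ^ τ x * |z x - κ x * ∑ v, u (p x) v * z v| ≤ 2 ^ τ x * ((8 * B + 4) * (1 + Δ x)) := by
          gcongr
      _ = (8 * B + 4) * ((1 + Δ x) * 2 ^ τ x) := by ring
      _ ≤ _ := by gcongr
  let l : A → ℕ := fun a => min (τ (tl a)) (τ (hd a))
  refine ⟨p, κ, u, fun a => (8 * B + 4) * (2 ^ τ (tl a) + 2 ^ τ (hd a))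
    + (2 * B + 1) * 2 * ((if a ∈ F then 0 else l a * 2 ^ l a : ℕ) : ℝ), ?_, hκ0, hκ1, hu2, ?_, ?_⟩
  · intro g hg v
    rcases hp v with h | ⟨a, ⟨h1, h2⟩ | ⟨h1, h2⟩⟩
    · rw [h]; simp
    · rw [← h2, ← h1]; exact hg a
    · rw [← h2, ← h1, abs_sub_comm]; exact hg a
  · intro z hz a
    by_cases ha : a ∈ F
    · simp only [ha, if_true, Nat.cast_zero, mul_zero, add_zero]
      rcases hF a ha with h | h
      · have := hstep z hz (tl a)
        rw [h] at this
        refine le_trans ?_ this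
        gcongr
        · norm_num
        · exact min_le_left _ _
      · have := hstep z hz (hd a)
        rw [h, abs_sub_comm, add_comm (2 ^ τ (hd a) : ℝ)] at this
        refine le_trans ?_ this
        gcongr
        · norm_num
        · exact min_le_right _ _
    · simp only [ha, if_false]
      have d1 : |∑ v, u (tl a) v * z v - ∑ v, u (hd a) v * z v|
          ≤ (2 * B + 1) * (τ (tl a) + τ (hd a)) := by
        have := abs_sub (∑ v, u (tl a) v * z v) (∑ v, u (hd a) v * z v)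
        have := hU z hz (tl a)
        have := hU z hz (hd a)
        linarith
      have d2 : (2 : ℝ) ^ l a * (τ (tl a) + τ (hd a))
          ≤ (2 ^ τ (tl a) + 2 ^ τ (hd a)) + 2 * (l a * 2 ^ l a) := by
        rcases le_total (τ (tl a)) (τ (hd a)) with h | h
        · have e : l a = τ (tl a) := min_eq_left h
          have c3 := one_add_mul_two_pow_le (τ (tl a)) (τ (hd a))
          rw [Nat.cast_sub h] at c3
          rw [e]
          have : (0 : ℝ) < 2 ^ τ (tl a) := by positivity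
          nlinarith
        · have e : l a = τ (hd a) := min_eq_right h
          have c3 := one_add_mul_two_pow_le (τ (hd a)) (τ (tl a))
          rw [Nat.cast_sub h] at c3
          rw [e]
          have : (0 : ℝ) < 2 ^ τ (hd a) := by positivity
          nlinarith
      have d3 : (0 : ℝ) ≤ 2 ^ τ (tl a) + 2 ^ τ (hd a) := by positivity
      push_cast
      calc (2 : ℝ) ^ l a * |∑ v, u (tl a) v * z v - ∑ v, u (hd a) v * z v|
          ≤ 2 ^ l a * ((2 * B + 1) * (τ (tl a) + τ (hd a))) := by gcongr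
        _ = (2 * B + 1) * (2 ^ l a * (τ (tl a) + τ (hd a))) := by ring
        _ ≤ (2 * B + 1) * ((2 ^ τ (tl a) + 2 ^ τ (hd a)) + 2 * (l a * 2 ^ l a)) := by gcongr
        _ ≤ _ := by nlinarith [mul_nonneg hB d3]
  · have s1 := htl.sum_le (fun v => (2 : ℝ) ^ τ v) (fun v => by positivity)
    have s2 := hhd.sum_le (fun v => (2 : ℝ) ^ τ v) (fun v => by positivity)
    have s3 : ((∑ a, (if a ∈ F then 0 else l a * 2 ^ l a) : ℕ) : ℝ)
        ≤ ((2 * (C0 + k0 * d) * ∑ v, 2 ^ τ v : ℕ) : ℝ) := by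
      exact_mod_cast sum_level_le τ l F (C0 + k0 * d) hcount
    have s4 : ∑ v, (2 : ℝ) ^ τ v ≤ 2 ^ k0 * Fintype.card V := by exact_mod_cast hsum
    rw [Finset.sum_add_distrib, ← Finset.mul_sum, ← Finset.mul_sum, Finset.sum_add_distrib,
      ← Nat.cast_sum]
    rw [Nat.cast_mul, Nat.cast_sum] at s3
    push_cast at s3 ⊢
    have s5 : (0 : ℝ) ≤ C0 + k0 * d := by positivity
    calc _ ≤ (8 * B + 4) * (2 * d * ∑ v, (2 : ℝ) ^ τ v)
          + (2 * B + 1) * 2 * (2 * (C0 + k0 * d) * ∑ v, (2 : ℝ) ^ τ v) := by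
          gcongr
          linarith
      _ ≤ (8 * B + 4) * (2 * d * (2 ^ k0 * Fintype.card V))
          + (2 * B + 1) * 2 * (2 * (C0 + k0 * d) * (2 ^ k0 * Fintype.card V)) := by gcongr
      _ = _ := by ring

end Pool.Agent.MP_60034d_an.H13
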