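import Mathlib
import Pool.Agent.MP_60034d_an.H13.TestFun
import Pool.Agent.MP_60034d_an.H13.Khin

set_option autoImplicit false

open Finset

namespace Pool.Agent.MP_60034d_an.H13

lemma exists_levels {V : Type*} (X : V → ℝ) (hX : ∀ v, 1 ≤ X v) :
    ∃ τ : V → ℕ, ∀ v, 1 ≤ τ v ∧ X v ≤ 2 ^ τ v ∧ 2 ^ τ v ≤ 2 * X v := by
  have h : ∀ v, ∃ n : ℕ, 1 ≤ n ∧ X v ≤ 2 ^ n ∧ 2 ^ n ≤ 2 * X v := by
    intro v
    obtain ⟨n, h1, h2⟩ := exists_nat_pow_near (hX v) (one_lt_two (α := ℝ))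
    refine ⟨n + 1, by omega, h2.le, ?_⟩
    rw [pow_succ]; linarith
  choose τ hτ using h
  exact ⟨τ, hτ⟩

lemma sq_sum_bound {ι : Type*} [Fintype ι] (c g δ : ι → ℝ) (hc : ∑ i, c i ^ 2 = 1) (κ Y : ℝ)
    (hκ0 : 0 ≤ κ) (hκ1 : κ ≤ 1) (hY : 0 < Y) (hδ : ∀ i, |δ i| ≤ 1)
    (hg : ∑ i, c i ^ 2 * g i ^ 2 ≤ Y ^ 2) :
    ∑ i, (c i * (κ * g i + (1 - κ) * δ i)) ^ 2 ≤ (1 + κ * Y) ^ 2 := by
  have h1 : ∀ i, (c i * (κ * g i + (1 - κ) * δ i)) ^ 2
      ≤ (κ ^ 2 + κ / Y) * (c i ^ 2 * g i ^ 2) + (1 + κ * Y) * c i ^ 2 := by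
    intro i
    have a1 : |(1 - κ) * δ i| ≤ 1 := by
      rw [abs_mul, abs_of_nonneg (by linarith : 0 ≤ 1 - κ)]
      have := hδ i
      have := abs_nonneg (δ i)
      nlinarith
    set e := (1 - κ) * δ i with he
    have a2 : e ^ 2 ≤ 1 := by
      rw [← sq_abs]
      have := abs_nonneg e
      nlinarith
    have a3 : 2 * g i * e ≤ g i ^ 2 / Y + Y := by
      have b1 : 2 * g i * e * Y ≤ g i ^ 2 + Y ^ 2 := by
        nlinarith [sq_nonneg (g i - e * Y), sq_nonneg Y]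
      have b2 : g i ^ 2 / Y + Y = (g i ^ 2 + Y ^ 2) / Y := by field_simp
      rw [b2, le_div_iff₀ hY]
      exact b1
    have a4 : (κ * g i + e) ^ 2 ≤ (κ ^ 2 + κ / Y) * g i ^ 2 + (1 + κ * Y) := by
      have b3 : κ * (2 * g i * e) ≤ κ * (g i ^ 2 / Y + Y) := mul_le_mul_of_nonneg_left a3 hκ0
      have b4 : κ * (g i ^ 2 / Y + Y) = κ / Y * g i ^ 2 + κ * Y := by ring
      nlinarith
    calc (c i * (κ * g i + e)) ^ 2 = c i ^ 2 * (κ * g i + e) ^ 2 := by ring
      _ ≤ c i ^ 2 * ((κ ^ 2 + κ / Y) * g i ^ 2 + (1 + κ * Y)) := by gcongr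
      _ = _ := by ring
  calc _ ≤ ∑ i, ((κ ^ 2 + κ / Y) * (c i ^ 2 * g i ^ 2) + (1 + κ * Y) * c i ^ 2) :=
        Finset.sum_le_sum (fun i _ => h1 i)
    _ = (κ ^ 2 + κ / Y) * (∑ i, c i ^ 2 * g i ^ 2) + (1 + κ * Y) := by
        rw [Finset.sum_add_distrib, ← Finset.mul_sum, ← Finset.mul_sum, hc, mul_one]
    _ ≤ (κ ^ 2 + κ / Y) * Y ^ 2 + (1 + κ * Y) := by gcongr
    _ = _ := by field_simp; ring

open Classical in
/-- The main estimate: a dual form of cotype 2. -/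
theorem core (d C0 : ℕ) : ∃ C : ℝ, 0 ≤ C ∧
    ∀ (V A : Type) [Fintype V] [Fintype A] (tl hd : A → V),
      FibLe tl d → FibLe hd d → Expands tl hd → Sparse tl hd C0 →
      ∀ (ι : Type) [Fintype ι] [DecidableEq ι] (f : ι → V → ℝ), (∀ i, ∑ v, f i v = 0) →
      ∀ (ν : Finset ι → ℝ),
        (∀ s g, ArcLip tl hd g → ∑ v, (∑ i, sg s i * f i v) * g v ≤ ν s) →
      ∀ M : ℝ, 0 < M → ∑ s, ν s ≤ 2 ^ Fintype.card ι * M →
      ∀ g : ι → V → ℝ, (∀ i, ArcLip tl hd (g i)) →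
      ∀ c : ι → ℝ, ∑ i, c i ^ 2 = 1 → ∑ i, c i * ∑ v, f i v * g i v ≤ C * M := by
  obtain ⟨β, hβ, K, hK, hmom⟩ := exp_moment d
  obtain ⟨k0, hk0⟩ : ∃ k0 : ℕ, 2 * (3 + 2 * K) ≤ 2 ^ k0 := by
    obtain ⟨k, hk⟩ := pow_unbounded_of_one_lt (2 * (3 + 2 * K)) (one_lt_two (α := ℝ))
    exact ⟨k, hk.le⟩
  set C' : ℝ := ((8 * β⁻¹ + 4) * (2 * d) + (2 * β⁻¹ + 1) * (4 * (C0 + k0 * d))) * 2 ^ k0 with hC'
  have hC'0 : 0 ≤ C' := by positivity
  refine ⟨2 * C', by positivity, ?_⟩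
  intro V A _ _ tl hd htl hhd hE hsp ι _ _ f hf ν hν M hM hνM g hg c hc
  rcases isEmpty_or_nonempty V with hV | hV
  · simp only [Finset.univ_eq_empty, Finset.sum_empty, mul_zero, Finset.sum_const_zero]
    positivity
  have hn : (0 : ℝ) < Fintype.card V := by exact_mod_cast Fintype.card_pos
  set P : ℝ := 2 ^ Fintype.card ι with hP
  have hP0 : 0 < P := by positivity
  -- flows
  choose φ hφ1 hφ2 using fun s => exists_flow tl hd (fun v => ∑ i, sg s i * f i v) (ν s) (hν s)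
  let Φ : A → ℝ := fun a => (∑ s, |φ s a|) / P
  have hΦ0 : ∀ a, 0 ≤ Φ a := fun a =>
    div_nonneg (Finset.sum_nonneg (fun s _ => abs_nonneg _)) hP0.le
  have hΦ : ∑ a, Φ a ≤ M := by
    rw [← Finset.sum_div, div_le_iff₀ hP0, Finset.sum_comm]
    calc _ ≤ ∑ s, ν s := Finset.sum_le_sum (fun s _ => hφ1 s)
      _ ≤ _ := by linarith
  -- medians
  choose m hm using fun i => hmom V A tl hd hhd hE (g i) (hg i)
  let g' : ι → V → ℝ := fun i v => g i v - m i
  have hg' : ∀ i, ArcLip tl hd (g' i) := fun i a => by simpa [g'] using hg i a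
  have hfg : ∀ i, ∑ v, f i v * g i v = ∑ v, f i v * g' i v := by
    intro i
    simp only [g', mul_sub, Finset.sum_sub_distrib]
    rw [← Finset.sum_mul, hf i]; ring
  let y : V → ℝ := fun v => Real.sqrt (∑ i, c i ^ 2 * g' i v ^ 2)
  have hy : ∑ v, Real.cosh (β * y v) ≤ K * Fintype.card V := by
    calc _ ≤ ∑ v, ∑ i, c i ^ 2 * Real.cosh (β * g' i v) :=
          Finset.sum_le_sum (fun v _ => cosh_sqrt_le c (fun i => g' i v) hc β)
      _ = ∑ i, c i ^ 2 * ∑ v, Real.cosh (β * g' i v) := by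
          rw [Finset.sum_comm]; simp_rw [Finset.mul_sum]
      _ ≤ ∑ i, c i ^ 2 * (K * Fintype.card V) :=
          Finset.sum_le_sum (fun i _ => mul_le_mul_of_nonneg_left (hm i) (sq_nonneg _))
      _ = _ := by rw [← Finset.sum_mul, hc, one_mul]
  -- levels
  set μ : ℝ := M / Fintype.card V with hμ
  have hμ0 : 0 < μ := by positivity
  let T1 : V → ℝ := fun v => ∑ a ∈ Finset.univ.filter (fun a => tl a = v), Φ a
  let T2 : V → ℝ := fun v => ∑ a ∈ Finset.univ.filter (fun a => hd a = v), Φ a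
  have hT1 : ∀ v, 0 ≤ T1 v := fun v => Finset.sum_nonneg (fun a _ => hΦ0 a)
  have hT2 : ∀ v, 0 ≤ T2 v := fun v => Finset.sum_nonneg (fun a _ => hΦ0 a)
  have hT1s : ∑ v, T1 v = ∑ a, Φ a := Finset.sum_fiberwise Finset.univ tl Φ
  have hT2s : ∑ v, T2 v = ∑ a, Φ a := Finset.sum_fiberwise Finset.univ hd Φ
  let X : V → ℝ := fun v => 1 + (T1 v + T2 v) / μ + 2 * Real.cosh (β * y v)
  have hXT : ∀ v, 0 ≤ (T1 v + T2 v) / μ := fun v => div_nonneg (add_nonneg (hT1 v) (hT2 v)) hμ0.le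
  have hXc : ∀ v, 0 < Real.cosh (β * y v) := fun v => Real.cosh_pos _
  obtain ⟨τ, hτ⟩ := exists_levels X (fun v => by
    have := hXT v; have := hXc v; simp only [X]; linarith)
  have hXs : ∑ v, X v ≤ (3 + 2 * K) * Fintype.card V := by
    simp only [X]
    rw [Finset.sum_add_distrib, Finset.sum_add_distrib, ← Finset.sum_div, Finset.sum_add_distrib,
      hT1s, hT2s, ← Finset.mul_sum]
    have e1 : (∑ a, Φ a + ∑ a, Φ a) / μ ≤ 2 * Fintype.card V := by
      rw [div_le_iff₀ hμ0, hμ]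
      have : 2 * (Fintype.card V : ℝ) * (M / Fintype.card V) = 2 * M := by field_simp
      rw [this]; linarith
    simp only [Finset.sum_const, Finset.card_univ, nsmul_eq_mul, mul_one]
    linarith
  have hsum : ∑ v, 2 ^ τ v ≤ 2 ^ k0 * Fintype.card V := by
    have : ∑ v, (2 : ℝ) ^ τ v ≤ 2 ^ k0 * Fintype.card V := by
      calc _ ≤ ∑ v, 2 * X v := Finset.sum_le_sum (fun v _ => (hτ v).2.2)
        _ = 2 * ∑ v, X v := by rw [Finset.mul_sum]
        _ ≤ 2 * ((3 + 2 * K) * Fintype.card V) := by gcongr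
        _ = (2 * (3 + 2 * K)) * Fintype.card V := by ring
        _ ≤ _ := by gcongr
    exact_mod_cast this
  have hyτ : ∀ v, y v ≤ β⁻¹ * τ v := by
    intro v
    have a1 : Real.exp (β * y v) ≤ 2 * Real.cosh (β * y v) := by
      rw [Real.cosh_eq]
      have := Real.exp_pos (-(β * y v))
      linarith
    have a2 : 2 * Real.cosh (β * y v) ≤ 2 ^ τ v := by
      have := (hτ v).2.1
      have := hXT v
      simp only [X] at *
      linarith
    have a3 : (2 : ℝ) ^ τ v ≤ Real.exp (τ v) := by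
      have : Real.exp (τ v) = Real.exp 1 ^ τ v := by rw [← Real.exp_nat_mul, mul_one]
      rw [this]
      have := Real.add_one_le_exp 1
      gcongr
      linarith
    have a4 : β * y v ≤ τ v := Real.exp_le_exp.1 (a1.trans (a2.trans a3))
    rw [le_inv_mul_iff₀ hβ]
    exact a4
  have hΦτ : ∀ a, Φ a ≤ μ * 2 ^ min (τ (tl a)) (τ (hd a)) := by
    intro a
    have b0 : ∀ v, T1 v + T2 v ≤ μ * 2 ^ τ v := by
      intro v
      have b1 : (T1 v + T2 v) / μ ≤ 2 ^ τ v := by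
        have := (hτ v).2.1
        have := hXc v
        simp only [X] at *
        linarith
      rwa [div_le_iff₀' hμ0] at b1
    have b1 : Φ a ≤ T1 (tl a) :=
      Finset.single_le_sum (f := Φ) (fun a _ => hΦ0 a) (Finset.mem_filter.2 ⟨Finset.mem_univ _, rfl⟩)
    have b2 : Φ a ≤ T2 (hd a) :=
      Finset.single_le_sum (f := Φ) (fun a _ => hΦ0 a) (Finset.mem_filter.2 ⟨Finset.mem_univ _, rfl⟩)
    rcases min_choice (τ (tl a)) (τ (hd a)) with h | h
    · rw [h]; linarith [b0 (tl a), hT2 (tl a)]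
    · rw [h]; linarith [b0 (hd a), hT1 (hd a)]
  obtain ⟨p, κ, u, W, hp, hκ0, hκ1, hu, hW, hWs⟩ := test_fun tl hd d C0 k0 htl hhd hsp τ
    (fun v => (hτ v).1) hsum β⁻¹ (by positivity)
  let ρ : ι → V → ℝ := fun i v => ∑ x, f i x * u x v
  let b : ι → V → ℝ := fun i v => g' i v - (1 - κ v) * g' i (p v)
  let w : V → ℝ := fun v => 1 + κ v * (β⁻¹ * τ v)
  have hY : ∀ v, 0 < β⁻¹ * τ v := fun v => by
    have : (0 : ℝ) < τ v := by exact_mod_cast (hτ v).1
    positivity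
  have hw : ∀ v, 0 < w v := fun v => by
    have := hY v; have := hκ0 v
    simp only [w]; positivity
  have hpair : ∀ i, ∑ v, f i v * g' i v = ∑ v, b i v * ρ i v := by
    intro i
    simp only [ρ, b, Finset.mul_sum]
    rw [Finset.sum_comm]
    refine Finset.sum_congr rfl (fun x _ => ?_)
    conv_lhs => rw [← hu (g' i) x, Finset.mul_sum]
    exact Finset.sum_congr rfl (fun v _ => by ring)
  have hkh : ∀ v, P * ∑ i, (c i * b i v) * ρ i v ≤ 2 * w v * ∑ s : Finset ι, |∑ i, sg s i * ρ i v| := by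
    intro v
    refine khin (fun i => c i * b i v) (fun i => ρ i v) (w v) (hw v) ?_
    have e : ∀ i, b i v = κ v * g' i v + (1 - κ v) * (g' i v - g' i (p v)) := fun i => by
      simp only [b]; ring
    simp_rw [e]
    refine sq_sum_bound c (fun i => g' i v) (fun i => g' i v - g' i (p v)) hc (κ v) _ (hκ0 v).le
      (hκ1 v) (hY v) (fun i => hp (g' i) (hg' i) v) ?_
    have h1 : 0 ≤ ∑ i, c i ^ 2 * g' i v ^ 2 := Finset.sum_nonneg (fun i _ => by positivity)
    rw [← Real.sq_sqrt h1]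
    exact pow_le_pow_left₀ (Real.sqrt_nonneg _) (hyτ v) 2
  have hflow : ∀ s : Finset ι, ∑ v, w v * |∑ i, sg s i * ρ i v|
      ≤ ∑ a, |φ s a| * (W a / 2 ^ min (τ (tl a)) (τ (hd a))) := by
    intro s
    let z : V → ℝ := fun v => if 0 ≤ ∑ i, sg s i * ρ i v then w v else - w v
    have hz : ∀ v, |z v| ≤ 1 + κ v * (β⁻¹ * τ v) := by
      intro v
      simp only [z]
      split_ifs
      · exact (abs_of_pos (hw v)).le
      · rw [abs_neg]; exact (abs_of_pos (hw v)).le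
    have e1 : ∀ v, w v * |∑ i, sg s i * ρ i v| = z v * ∑ i, sg s i * ρ i v := by
      intro v
      simp only [z]
      split_ifs with h
      · rw [abs_of_nonneg h]
      · rw [abs_of_neg (not_le.1 h)]; ring
    have e2 : ∑ v, z v * ∑ i, sg s i * ρ i v
        = ∑ x, (∑ i, sg s i * f i x) * ∑ v, u x v * z v := by
      simp only [ρ, Finset.mul_sum, Finset.sum_mul]
      conv_rhs => rw [Finset.sum_comm]
      refine Finset.sum_congr rfl (fun v _ => ?_)
      rw [Finset.sum_comm]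
      exact Finset.sum_congr rfl (fun x _ => Finset.sum_congr rfl (fun i _ => by ring))
    simp_rw [e1]
    rw [e2, hφ2 s (fun x => ∑ v, u x v * z v)]
    refine Finset.sum_le_sum (fun a _ => (le_abs_self _).trans ?_)
    rw [abs_mul]
    refine mul_le_mul_of_nonneg_left ?_ (abs_nonneg _)
    rw [le_div_iff₀' (by positivity)]
    exact hW z hz a
  have hW0 : ∀ a, 0 ≤ W a := fun a =>
    le_trans (by positivity) (hW (fun _ => 0) (fun v => by simpa using (hw v).le) a)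
  have hfin : P * ∑ i, c i * ∑ v, f i v * g i v ≤ P * (2 * C' * M) := by
    calc P * ∑ i, c i * ∑ v, f i v * g i v = ∑ v, P * ∑ i, (c i * b i v) * ρ i v := by
          rw [← Finset.mul_sum]
          congr 1
          rw [Finset.sum_comm]
          refine Finset.sum_congr rfl (fun i _ => ?_)
          rw [hfg, hpair, Finset.mul_sum]
          exact Finset.sum_congr rfl (fun v _ => by ring)
      _ ≤ ∑ v, 2 * w v * ∑ s : Finset ι, |∑ i, sg s i * ρ i v| := Finset.sum_le_sum (fun v _ => hkh v)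
      _ = 2 * ∑ s : Finset ι, ∑ v, w v * |∑ i, sg s i * ρ i v| := by
          rw [Finset.sum_comm, Finset.mul_sum]
          refine Finset.sum_congr rfl (fun v _ => ?_)
          rw [← Finset.mul_sum]; ring
      _ ≤ 2 * ∑ s : Finset ι, ∑ a, |φ s a| * (W a / 2 ^ min (τ (tl a)) (τ (hd a))) := by
          have := Finset.sum_le_sum (s := Finset.univ) (fun s _ => hflow s)
          linarith
      _ = 2 * ∑ a, P * (Φ a * (W a / 2 ^ min (τ (tl a)) (τ (hd a)))) := by
          rw [Finset.sum_comm]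
          congr 1
          refine Finset.sum_congr rfl (fun a _ => ?_)
          rw [← Finset.sum_mul]
          simp only [Φ]
          field_simp
      _ ≤ 2 * ∑ a, P * (μ * W a) := by
          have : ∀ a, P * (Φ a * (W a / 2 ^ min (τ (tl a)) (τ (hd a)))) ≤ P * (μ * W a) := by
            intro a
            refine mul_le_mul_of_nonneg_left ?_ hP0.le
            have := hW0 a
            calc _ ≤ (μ * 2 ^ min (τ (tl a)) (τ (hd a))) * (W a / 2 ^ min (τ (tl a)) (τ (hd a))) :=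
                  mul_le_mul_of_nonneg_right (hΦτ a) (by positivity)
              _ = _ := by field_simp
          have := Finset.sum_le_sum (s := Finset.univ) (fun a _ => this a)
          linarith
      _ = 2 * (P * (μ * ∑ a, W a)) := by rw [← Finset.mul_sum, ← Finset.mul_sum]
      _ ≤ 2 * (P * (μ * (C' * Fintype.card V))) := by gcongr
      _ = P * (2 * C' * M) := by rw [hμ]; field_simp
  exact le_of_mul_le_mul_left hfin hP0

end Pool.Agent.MP_60034d_an.H13
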