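import Mathlib
import Pool.Agent.MP_60034d_an.H13.TestFun

set_option autoImplicit false

open Finset

namespace Pool.Agent.MP_60034d_an.H13

lemma count_perm {V : Type*} [Fintype V] [DecidableEq V] (S A : Finset V) :
    Fintype.card V ^ A.card * (Finset.univ.filter (fun π : Equiv.Perm V => ∀ v ∈ A, π v ∈ S)).card
      ≤ S.card ^ A.card * (Fintype.card V).factorial := by
  induction A using Finset.induction_on with
  | empty => simp [Fintype.card_perm]
  | insert a A ha ih =>
    set Q := Finset.univ.filter (fun π : Equiv.Perm V => ∀ v ∈ A, π v ∈ S) with hQ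
    have e0 : Finset.univ.filter (fun π : Equiv.Perm V => ∀ v ∈ insert a A, π v ∈ S)
        = Q.filter (fun π => π a ∈ S) := by
      ext π
      simp [hQ, and_comm]
    have h1 : ∀ b ∈ Aᶜ, (Q.filter (fun π => π b ∈ S)).card = (Q.filter (fun π => π a ∈ S)).card := by
      intro b hb
      have hb' : b ∉ A := Finset.mem_compl.1 hb
      have hsw : ∀ v ∈ A, Equiv.swap a b v = v := fun v hv =>
        Equiv.swap_apply_of_ne_of_ne (fun h => ha (h ▸ hv)) (fun h => hb' (h ▸ hv))
      refine Finset.card_bij' (fun π _ => π * Equiv.swap a b) (fun π _ => π * Equiv.swap a b)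
        ?_ ?_ ?_ ?_
      · intro π hπ
        simp only [hQ, Finset.mem_filter, Finset.mem_univ, true_and, Equiv.Perm.mul_apply,
          Equiv.swap_apply_left] at hπ ⊢
        exact ⟨fun v hv => by rw [hsw v hv]; exact hπ.1 v hv, hπ.2⟩
      · intro π hπ
        simp only [hQ, Finset.mem_filter, Finset.mem_univ, true_and, Equiv.Perm.mul_apply,
          Equiv.swap_apply_right] at hπ ⊢
        exact ⟨fun v hv => by rw [hsw v hv]; exact hπ.1 v hv, hπ.2⟩
      · intro π _
        simp [mul_assoc]
      · intro π _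
        simp [mul_assoc]
    have h2 : ∀ π ∈ Q, (Aᶜ.filter (fun b => π b ∈ S)).card + A.card = S.card := by
      intro π hπ
      have hπ' : ∀ v ∈ A, π v ∈ S := (Finset.mem_filter.1 hπ).2
      have e1 : Aᶜ.filter (fun b => π b ∈ S) ∪ A = S.map π.symm.toEmbedding := by
        ext v
        simp only [Finset.mem_union, Finset.mem_filter, Finset.mem_compl, Finset.mem_map_equiv,
          Equiv.symm_symm]
        constructor
        · rintro (h | h)
          · exact h.2
          · exact hπ' v h
        · intro h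
          by_cases hv : v ∈ A
          · exact Or.inr hv
          · exact Or.inl ⟨hv, h⟩
      rw [← Finset.card_union_of_disjoint, e1, Finset.card_map]
      rw [Finset.disjoint_left]
      intro v hv
      exact Finset.mem_compl.1 (Finset.mem_filter.1 hv).1
    have h3 : ∑ b ∈ Aᶜ, (Q.filter (fun π => π b ∈ S)).card
        = ∑ π ∈ Q, (Aᶜ.filter (fun b => π b ∈ S)).card := by
      simp_rw [Finset.card_filter]
      exact Finset.sum_comm
    rw [Finset.sum_congr rfl h1, Finset.sum_const, smul_eq_mul] at h3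
    have h4 : ∑ π ∈ Q, ((Aᶜ.filter (fun b => π b ∈ S)).card + A.card) = Q.card * S.card := by
      rw [Finset.sum_congr rfl h2, Finset.sum_const, smul_eq_mul]
    rw [Finset.sum_add_distrib, ← h3, Finset.sum_const, smul_eq_mul] at h4
    have h5 : (Q.filter (fun π => π a ∈ S)).card ≤ Q.card := Finset.card_filter_le _ _
    have h6 : Aᶜ.card + A.card = Fintype.card V := Finset.card_compl_add_card A
    have h7 : Fintype.card V * (Q.filter (fun π => π a ∈ S)).card ≤ S.card * Q.card := by
      rw [← h6, mul_comm S.card, ← h4]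
      nlinarith
    rw [e0, Finset.card_insert_of_notMem ha]
    calc Fintype.card V ^ (A.card + 1) * (Q.filter (fun π => π a ∈ S)).card
        = Fintype.card V ^ A.card * (Fintype.card V * (Q.filter (fun π => π a ∈ S)).card) := by ring
      _ ≤ Fintype.card V ^ A.card * (S.card * Q.card) := Nat.mul_le_mul_left _ h7
      _ = S.card * (Fintype.card V ^ A.card * Q.card) := by ring
      _ ≤ S.card * (S.card ^ A.card * (Fintype.card V).factorial) := Nat.mul_le_mul_left _ ih
      _ = _ := by ring

lemma mgf_perm {V : Type*} [Fintype V] [DecidableEq V] (S : Finset V) (hS : S.Nonempty) :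
    ∑ π : Equiv.Perm V, (1 + 3 * (Fintype.card V : ℝ) / S.card) ^ (S.filter (fun v => π v ∈ S)).card
      ≤ 4 ^ S.card * (Fintype.card V).factorial := by
  have hs : (0 : ℝ) < S.card := by exact_mod_cast hS.card_pos
  have hn : (0 : ℝ) < Fintype.card V := lt_of_lt_of_le hs (by exact_mod_cast Finset.card_le_univ S)
  set x : ℝ := 3 * (Fintype.card V : ℝ) / S.card with hx
  have hx0 : 0 ≤ x := by positivity
  have e1 : ∀ π : Equiv.Perm V, (1 + x) ^ (S.filter (fun v => π v ∈ S)).card
      = ∑ A ∈ S.powerset, x ^ A.card * (if ∀ v ∈ A, π v ∈ S then 1 else 0) := by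
    intro π
    have : (1 + x) ^ (S.filter (fun v => π v ∈ S)).card
        = ∏ v ∈ S, (1 + if π v ∈ S then x else 0) := by
      rw [← Finset.prod_const, Finset.prod_filter]
      refine Finset.prod_congr rfl (fun v _ => ?_)
      split_ifs <;> simp
    rw [this, Finset.prod_one_add]
    refine Finset.sum_congr rfl (fun A _ => ?_)
    rw [Finset.prod_ite_zero]
    split_ifs <;> simp
  have e2 : ∀ A : Finset V, x ^ A.card *
      ((Finset.univ.filter (fun π : Equiv.Perm V => ∀ v ∈ A, π v ∈ S)).card : ℝ)
        ≤ 3 ^ A.card * (Fintype.card V).factorial := by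
    intro A
    have h1 : (Fintype.card V : ℝ) ^ A.card *
        ((Finset.univ.filter (fun π : Equiv.Perm V => ∀ v ∈ A, π v ∈ S)).card : ℝ)
        ≤ (S.card : ℝ) ^ A.card * (Fintype.card V).factorial := by exact_mod_cast count_perm S A
    rw [hx, div_pow, mul_pow, div_mul_eq_mul_div, div_le_iff₀ (by positivity)]
    calc _ = 3 ^ A.card * ((Fintype.card V : ℝ) ^ A.card *
        ((Finset.univ.filter (fun π : Equiv.Perm V => ∀ v ∈ A, π v ∈ S)).card : ℝ)) := by ring
      _ ≤ 3 ^ A.card * ((S.card : ℝ) ^ A.card * (Fintype.card V).factorial) := by gcongr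
      _ = _ := by ring
  simp_rw [e1]
  rw [Finset.sum_comm]
  simp_rw [← Finset.mul_sum, Finset.sum_boole]
  calc _ ≤ ∑ A ∈ S.powerset, (3 : ℝ) ^ A.card * (Fintype.card V).factorial :=
        Finset.sum_le_sum (fun A _ => e2 A)
    _ = _ := by
        rw [← Finset.sum_mul]
        congr 1
        have := Finset.prod_one_add (f := fun _ : V => (3 : ℝ)) S
        simp only [Finset.prod_const] at this
        rw [← this]; norm_num

lemma choose_le_three (n s : ℕ) (hs : 0 < s) : (n.choose s : ℝ) ≤ (3 * (n : ℝ) / s) ^ s := by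
  have h1 : (n.choose s : ℝ) ≤ (n : ℝ) ^ s / s.factorial := Nat.choose_le_pow_div s n
  have h2 : (s : ℝ) ^ s / s.factorial ≤ Real.exp s := Real.pow_div_factorial_le_exp _ (by positivity) s
  have h3 : Real.exp s ≤ 3 ^ s := by
    have : Real.exp s = Real.exp 1 ^ s := by rw [← Real.exp_nat_mul, mul_one]
    rw [this]
    have := Real.exp_one_lt_d9
    gcongr
    linarith
  have hs' : (0 : ℝ) < s := by exact_mod_cast hs
  have hf : (0 : ℝ) < s.factorial := by exact_mod_cast s.factorial_pos
  calc _ ≤ (n : ℝ) ^ s / s.factorial := h1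
    _ = ((n : ℝ) / s) ^ s * ((s : ℝ) ^ s / s.factorial) := by rw [div_pow]; field_simp
    _ ≤ ((n : ℝ) / s) ^ s * 3 ^ s := by gcongr; exact h2.trans h3
    _ = _ := by rw [← mul_pow]; congr 1; ring

lemma exists_good_perms (V : Type*) [Fintype V] [DecidableEq V] (d : ℕ) :
    ∃ π : Fin d → Equiv.Perm V, ∀ S : Finset V, S.Nonempty →
      (3 * (Fintype.card V : ℝ) / S.card) ^ (∑ i, (S.filter (fun v => π i v ∈ S)).card)
        < (3 * (Fintype.card V : ℝ) / S.card) ^ S.card * 4 ^ ((d + 1) * S.card) := by
  set n := Fintype.card V with hn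
  let T : ℕ → ℝ := fun s => (3 * (n : ℝ) / s) ^ s * 4 ^ ((d + 1) * s)
  let Z : (Fin d → Equiv.Perm V) → Finset V → ℝ := fun π S =>
    if S.Nonempty then
      (1 + 3 * (n : ℝ) / S.card) ^ (∑ i, (S.filter (fun v => π i v ∈ S)).card) / T S.card else 0
  have hT : ∀ S : Finset V, S.Nonempty → 0 < T S.card := by
    intro S hS
    have hs : (0 : ℝ) < S.card := by exact_mod_cast hS.card_pos
    have hn' : (0 : ℝ) < n := lt_of_lt_of_le hs (by exact_mod_cast Finset.card_le_univ S)
    simp only [T]; positivity
  have hZ0 : ∀ π S, 0 ≤ Z π S := by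
    intro π S
    simp only [Z]
    split_ifs with h
    · have := hT S h
      positivity
    · exact le_refl _
  let F : ℕ → ℝ := fun s => if s = 0 then 0 else ((3 * (n : ℝ) / s) ^ s * 4 ^ s)⁻¹
  have h1 : ∀ S : Finset V, ∑ π, Z π S ≤ F S.card * (n.factorial : ℝ) ^ d := by
    intro S
    by_cases hS : S.Nonempty
    · have hs : (0 : ℝ) < S.card := by exact_mod_cast hS.card_pos
      have hn' : (0 : ℝ) < n := lt_of_lt_of_le hs (by exact_mod_cast Finset.card_le_univ S)
      simp only [Z, F, if_pos hS, if_neg hS.card_pos.ne']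
      rw [← Finset.sum_div, div_le_iff₀ (hT S hS)]
      simp_rw [← Finset.prod_pow_eq_pow_sum]
      have e := Finset.prod_univ_sum (fun _ : Fin d => (Finset.univ : Finset (Equiv.Perm V)))
        (fun _ σ => (1 + 3 * (n : ℝ) / S.card) ^ (S.filter (fun v => σ v ∈ S)).card)
      rw [Fintype.piFinset_univ] at e
      rw [← e, Finset.prod_const, Finset.card_univ, Fintype.card_fin]
      calc _ ≤ ((4 : ℝ) ^ S.card * n.factorial) ^ d :=
            pow_le_pow_left₀ (Finset.sum_nonneg (fun _ _ => by positivity)) (mgf_perm S hS) d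
        _ = _ := by
            simp only [T]
            rw [mul_pow, add_mul, one_mul, pow_add, mul_comm d, pow_mul]
            field_simp
    · simp only [Z, F, if_neg hS]
      rw [Finset.not_nonempty_iff_eq_empty.1 hS]
      simp
  have h2 : ∑ S : Finset V, F S.card < 1 := by
    have e := Finset.sum_powerset_apply_card F (x := (Finset.univ : Finset V))
    rw [Finset.powerset_univ, Finset.card_univ, ← hn] at e
    rw [e, Finset.sum_range_succ']
    have h3 : ∀ k ∈ Finset.range n, n.choose (k + 1) • F (k + 1) ≤ (1 / 4) * (1 / 4 : ℝ) ^ k := by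
      intro k hk
      have hn' : (0 : ℝ) < n := by
        have := Finset.mem_range.1 hk
        exact_mod_cast (by omega : 0 < n)
      simp only [F, if_neg (Nat.succ_ne_zero k), nsmul_eq_mul]
      have h4 := choose_le_three n (k + 1) (Nat.succ_pos k)
      have h5 : (0 : ℝ) < (3 * (n : ℝ) / ((k + 1 : ℕ) : ℝ)) ^ (k + 1) := by positivity
      calc _ ≤ (3 * (n : ℝ) / ((k + 1 : ℕ) : ℝ)) ^ (k + 1) *
            ((3 * (n : ℝ) / ((k + 1 : ℕ) : ℝ)) ^ (k + 1) * 4 ^ (k + 1))⁻¹ := by gcongr
        _ = _ := by rw [one_div, inv_pow, pow_succ (4 : ℝ)]; field_simp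
    have h6 : ∑ k ∈ Finset.range n, (1 / 4 : ℝ) ^ k ≤ (1 - 1 / 4)⁻¹ := by
      rw [← tsum_geometric_of_lt_one (by norm_num) (by norm_num)]
      exact (summable_geometric_of_lt_one (by norm_num) (by norm_num)).sum_le_tsum _
        (fun i _ => by positivity)
    have h7 := Finset.sum_le_sum h3
    rw [← Finset.mul_sum] at h7
    have h8 : n.choose 0 • F 0 = 0 := by simp [F]
    rw [h8]
    norm_num at h6 ⊢
    norm_num at h7
    linarith
  have h3 : ∑ π, ∑ S, Z π S < ∑ _π : Fin d → Equiv.Perm V, (1 : ℝ) := by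
    rw [Finset.sum_comm]
    have hf : (0 : ℝ) < (n.factorial : ℝ) ^ d := by
      have : (0 : ℝ) < n.factorial := by exact_mod_cast n.factorial_pos
      positivity
    calc _ ≤ ∑ S : Finset V, F S.card * (n.factorial : ℝ) ^ d := Finset.sum_le_sum (fun S _ => h1 S)
      _ = (∑ S : Finset V, F S.card) * (n.factorial : ℝ) ^ d := by rw [Finset.sum_mul]
      _ < 1 * (n.factorial : ℝ) ^ d := by gcongr
      _ = _ := by simp [Fintype.card_perm, hn]
  obtain ⟨π, -, hπ⟩ := Finset.exists_lt_of_sum_lt h3
  refine ⟨π, fun S hS => ?_⟩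
  have h4 : Z π S < 1 :=
    lt_of_le_of_lt (Finset.single_le_sum (f := Z π) (fun S _ => hZ0 π S) (Finset.mem_univ S)) hπ
  simp only [Z, if_pos hS] at h4
  rw [div_lt_one (hT S hS)] at h4
  refine lt_of_le_of_lt ?_ h4
  gcongr
  linarith

/-- Head map of the arcs of a family of permutations. -/
def phd {V : Type*} {d : ℕ} (π : Fin d → Equiv.Perm V) (a : V × Fin d) : V := π a.2 a.1

lemma inner_perm {V : Type*} [Fintype V] [DecidableEq V] {d : ℕ} (π : Fin d → Equiv.Perm V)
    (S : Finset V) :
    inner Prod.fst (phd π) S = ∑ i, (S.filter (fun v => π i v ∈ S)).card := by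
  classical
  unfold inner
  simp_rw [Finset.card_filter]
  rw [Fintype.sum_prod_type_right]
  refine Finset.sum_congr rfl (fun i _ => ?_)
  rw [← Finset.sum_filter_add_sum_filter_not Finset.univ (fun v => v ∈ S)]
  have e1 : Finset.univ.filter (fun v => v ∈ S) = S := by ext; simp
  rw [e1, Finset.sum_eq_zero (s := Finset.univ.filter (fun v => ¬ v ∈ S)), add_zero]
  · refine Finset.sum_congr rfl (fun v hv => ?_)
    simp [hv, phd]
  · intro v hv
    have := (Finset.mem_filter.1 hv).2
    simp [this]

lemma fib_fst {V : Type*} [Fintype V] (d : ℕ) : FibLe (Prod.fst : V × Fin d → V) d := by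
  classical
  intro v
  refine le_trans (Finset.card_le_card_of_injOn (t := Finset.univ) Prod.snd
    (fun a _ => by simp) ?_) (by simp)
  intro a ha b hb hab
  have h1 := (Finset.mem_filter.1 (Finset.mem_coe.1 ha)).2
  have h2 := (Finset.mem_filter.1 (Finset.mem_coe.1 hb)).2
  exact Prod.ext (h1.trans h2.symm) hab

lemma fib_phd {V : Type*} [Fintype V] {d : ℕ} (π : Fin d → Equiv.Perm V) : FibLe (phd π) d := by
  classical
  intro v
  refine le_trans (Finset.card_le_card_of_injOn (t := Finset.univ) Prod.snd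
    (fun a _ => by simp) ?_) (by simp)
  intro a ha b hb hab
  have h1 := (Finset.mem_filter.1 (Finset.mem_coe.1 ha)).2
  have h2 := (Finset.mem_filter.1 (Finset.mem_coe.1 hb)).2
  refine Prod.ext ?_ hab
  unfold phd at h1 h2
  rw [← hab] at h2
  exact (π a.2).injective (h1.trans h2.symm)

/-- Good families of permutations exist on every finite set. -/
theorem exists_good (V : Type*) [Fintype V] [DecidableEq V] :
    ∃ π : Fin 13 → Equiv.Perm V, Expands Prod.fst (phd π) ∧ Sparse Prod.fst (phd π) 28 := by
  classical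
  obtain ⟨π, hπ⟩ := exists_good_perms V 13
  simp_rw [← inner_perm] at hπ
  have key : ∀ S : Finset V, S.Nonempty → ∀ j : ℕ, S.card + j ≤ inner Prod.fst (phd π) S →
      (3 * (Fintype.card V : ℝ) / S.card) ^ j < 4 ^ (14 * S.card) := by
    intro S hS j hj
    have hs : (0 : ℝ) < S.card := by exact_mod_cast hS.card_pos
    have hsn : (S.card : ℝ) ≤ Fintype.card V := by exact_mod_cast Finset.card_le_univ S
    have h1 : (1 : ℝ) ≤ 3 * (Fintype.card V : ℝ) / S.card := by
      rw [le_div_iff₀ hs]; linarith
    have h2 := (pow_le_pow_right₀ h1 hj).trans_lt (hπ S hS)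
    rw [pow_add] at h2
    exact lt_of_mul_lt_mul_left h2 (by positivity)
  refine ⟨π, fun S hS2 => ?_, fun k S hk => ?_⟩
  · rcases S.eq_empty_or_nonempty with rfl | hS
    · simp
    have hs : (0 : ℝ) < S.card := by exact_mod_cast hS.card_pos
    have h1 : inner Prod.fst (phd π) S < S.card + 11 * S.card := by
      by_contra hc
      have h2 := key S hS (11 * S.card) (not_lt.1 hc)
      have h3 : (6 : ℝ) ≤ 3 * (Fintype.card V : ℝ) / S.card := by
        rw [le_div_iff₀ hs]
        have : (2 : ℝ) * S.card ≤ Fintype.card V := by exact_mod_cast hS2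
        linarith
      have h4 : (4 : ℝ) ^ (14 * S.card) ≤ 6 ^ (11 * S.card) := by
        rw [pow_mul, pow_mul]
        gcongr
        norm_num
      have h5 : (6 : ℝ) ^ (11 * S.card) ≤ (3 * (Fintype.card V : ℝ) / S.card) ^ (11 * S.card) := by
        gcongr
      linarith
    have h6 : inner Prod.fst (phd π) S
        + (Finset.univ.filter (fun a : V × Fin 13 => a.1 ∈ S ∧ phd π a ∉ S)).card = 13 * S.card := by
      unfold inner
      have e := Finset.card_filter_add_card_filter_not
        (s := Finset.univ.filter (fun a : V × Fin 13 => a.1 ∈ S)) (fun a => phd π a ∈ S)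
      rw [Finset.filter_filter, Finset.filter_filter] at e
      have e2 : Finset.univ.filter (fun a : V × Fin 13 => a.1 ∈ S) = S ×ˢ Finset.univ := by
        ext a; simp
      rw [e2, Finset.card_product] at e
      simp only [Finset.card_univ, Fintype.card_fin] at e
      rw [mul_comm 13]
      convert e
    have h7 : S.card ≤ (Finset.univ.filter (fun a : V × Fin 13 => a.1 ∈ S ∧ phd π a ∉ S)).card := by
      omega
    convert h7
  · rcases S.eq_empty_or_nonempty with rfl | hS
    · simp [inner]
    have hs : (0 : ℝ) < S.card := by exact_mod_cast hS.card_pos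
    rcases le_or_gt (inner Prod.fst (phd π) S) S.card with h | h
    · nlinarith [Nat.mul_le_mul_left k h]
    · obtain ⟨j, hj⟩ := Nat.exists_eq_add_of_le h.le
      have h2 := key S hS j hj.ge
      have h3 : (2 : ℝ) ^ k ≤ 3 * (Fintype.card V : ℝ) / S.card := by
        rw [le_div_iff₀ hs]
        have h4 : (2 : ℝ) ^ k * S.card ≤ Fintype.card V := by exact_mod_cast hk
        have : (0 : ℝ) ≤ Fintype.card V := Nat.cast_nonneg _
        linarith
      have h5 : (2 : ℝ) ^ (k * j) < 2 ^ (28 * S.card) := by
        calc (2 : ℝ) ^ (k * j) = (2 ^ k) ^ j := pow_mul _ _ _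
          _ ≤ (3 * (Fintype.card V : ℝ) / S.card) ^ j := by gcongr
          _ < 4 ^ (14 * S.card) := h2
          _ = _ := by
            rw [show (4 : ℝ) = 2 ^ 2 by norm_num, ← pow_mul]; congr 1; ring
      have h6 : k * j < 28 * S.card := (pow_lt_pow_iff_right₀ (by norm_num)).1 h5
      rw [hj]; nlinarith

end Pool.Agent.MP_60034d_an.H13
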