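import Mathlib
import Pool.Agent.MP_60034d_an.H13.Random
import Pool.Agent.MP_60034d_an.H13.Core

set_option autoImplicit false

open Finset

namespace Pool.Agent.MP_60034d_an.H13

/-- The simple graph of a family of permutations. -/
def pg {V : Type*} {d : ℕ} (π : Fin d → Equiv.Perm V) : SimpleGraph V :=
  SimpleGraph.fromRel (fun u v => ∃ i, π i u = v)

lemma pg_adj_or_eq {V : Type*} {d : ℕ} (π : Fin d → Equiv.Perm V) (a : V × Fin d) :
    a.1 = phd π a ∨ (pg π).Adj a.1 (phd π a) := by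
  by_cases h : a.1 = phd π a
  · exact Or.inl h
  · exact Or.inr ((SimpleGraph.fromRel_adj _ _ _).2 ⟨h, Or.inl ⟨a.2, rfl⟩⟩)

lemma pg_degree {V : Type*} {d : ℕ} (π : Fin d → Equiv.Perm V) (v : V)
    [Fintype ((pg π).neighborSet v)] : (pg π).degree v ≤ 2 * d := by
  classical
  have h : (pg π).neighborFinset v ⊆
      Finset.univ.image (fun i => π i v) ∪ Finset.univ.image (fun i => (π i).symm v) := by
    intro w hw
    rw [SimpleGraph.mem_neighborFinset] at hw
    obtain ⟨-, ⟨i, hi⟩ | ⟨i, hi⟩⟩ := (SimpleGraph.fromRel_adj _ _ _).1 hw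
    · exact Finset.mem_union_left _ (Finset.mem_image.2 ⟨i, Finset.mem_univ _, hi⟩)
    · exact Finset.mem_union_right _
        (Finset.mem_image.2 ⟨i, Finset.mem_univ _, by rw [← hi]; simp⟩)
  have h1 := Finset.card_le_card h
  have h2 := Finset.card_union_le (Finset.univ.image (fun i => π i v))
    (Finset.univ.image (fun i => (π i).symm v))
  have h3 : (Finset.univ.image (fun i => π i v)).card ≤ d := Finset.card_image_le.trans (by simp)
  have h4 : (Finset.univ.image (fun i => (π i).symm v)).card ≤ d :=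
    Finset.card_image_le.trans (by simp)
  rw [← SimpleGraph.card_neighborFinset_eq_degree]
  omega

lemma pg_expand {V : Type*} [Fintype V] [DecidableEq V] {d : ℕ} (π : Fin d → Equiv.Perm V)
    (hE : Expands Prod.fst (phd π)) (S : Finset V) (hS : 2 * S.card ≤ Fintype.card V)
    [DecidablePred (fun p : V × V => (pg π).Adj p.1 p.2)] :
    S.card ≤ d * ((S ×ˢ Sᶜ).filter (fun p => (pg π).Adj p.1 p.2)).card := by
  refine (hE S hS).trans ?_
  refine le_trans (Finset.card_le_card_of_injOn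
    (t := ((S ×ˢ Sᶜ).filter (fun p => (pg π).Adj p.1 p.2)) ×ˢ (Finset.univ : Finset (Fin d)))
    (fun a => ((a.1, phd π a), a.2)) (fun a ha => ?_) ?_) (by simp [mul_comm])
  · have ha' := Finset.mem_coe.1 ha
    simp only [Finset.mem_filter, Finset.mem_univ, true_and] at ha'
    obtain ⟨h1, h2⟩ := ha'
    refine Finset.mem_coe.2 (Finset.mem_product.2 ⟨Finset.mem_filter.2
      ⟨Finset.mem_product.2 ⟨h1, Finset.mem_compl.2 h2⟩, ?_⟩, Finset.mem_univ _⟩)
    rcases pg_adj_or_eq π a with h | h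
    · exact absurd (h ▸ h1) h2
    · exact h
  · intro a _ b _ hab
    simp only [Prod.mk.injEq] at hab
    exact Prod.ext hab.1.1 hab.2

lemma pg_reach {V : Type*} [Fintype V] {d : ℕ} (π : Fin d → Equiv.Perm V)
    (hE : Expands Prod.fst (phd π)) (u v : V) : (pg π).Reachable u v := by
  classical
  let R : Finset V := Finset.univ.filter (fun x => (pg π).Reachable u x)
  have hR : ∀ a : V × Fin d, a.1 ∈ R ↔ phd π a ∈ R := by
    intro a
    rcases pg_adj_or_eq π a with h | h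
    · rw [← h]
    · simp only [R, Finset.mem_filter, Finset.mem_univ, true_and]
      exact ⟨fun h' => h'.trans h.reachable, fun h' => h'.trans h.symm.reachable⟩
  have hzero : ∀ S : Finset V, (∀ a : V × Fin d, a.1 ∈ S → phd π a ∈ S) →
      2 * S.card ≤ Fintype.card V → S = ∅ := by
    intro S hS h2
    have h3 := hE S h2
    rw [Finset.filter_eq_empty_iff.2 (fun a _ h => h.2 (hS a h.1))] at h3
    simpa using h3
  have huR : u ∈ R := Finset.mem_filter.2 ⟨Finset.mem_univ _, SimpleGraph.Reachable.refl u⟩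
  have hc := Finset.card_compl_add_card R
  rcases le_or_gt (2 * R.card) (Fintype.card V) with h | h
  · rw [hzero R (fun a ha => (hR a).1 ha) h] at huR
    simp at huR
  · have h1 := hzero Rᶜ (fun a ha => Finset.mem_compl.2
      (fun h' => Finset.mem_compl.1 ha ((hR a).2 h'))) (by omega)
    by_contra hv
    have : v ∈ Rᶜ := Finset.mem_compl.2 (fun h' => hv (Finset.mem_filter.1 h').2)
    rw [h1] at this
    simp at this

lemma lip_iff {V : Type*} [Fintype V] {d : ℕ} (π : Fin d → Equiv.Perm V)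
    (hE : Expands Prod.fst (phd π)) (g : V → ℝ) :
    (∀ u v, |g u - g v| ≤ ((pg π).dist u v : ℝ)) ↔ ArcLip Prod.fst (phd π) g := by
  constructor
  · intro h a
    rcases pg_adj_or_eq π a with h1 | h1
    · rw [← h1]; simp
    · have := h a.1 (phd π a)
      rw [SimpleGraph.dist_eq_one_iff_adj.2 h1] at this
      simpa using this
  · intro h u v
    have hadj : ∀ x y, (pg π).Adj x y → |g x - g y| ≤ 1 := by
      intro x y hxy
      obtain ⟨-, ⟨i, hi⟩ | ⟨i, hi⟩⟩ := (SimpleGraph.fromRel_adj _ _ _).1 hxy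
      · rw [← hi]; exact h (x, i)
      · rw [← hi, abs_sub_comm]; exact h (y, i)
    have hw : ∀ (x y : V) (p : (pg π).Walk x y), |g x - g y| ≤ p.length := by
      intro x y p
      induction p with
      | nil => simp
      | @cons a b c hab p ih =>
        have := abs_sub_le (g a) (g b) (g c)
        have := hadj a b hab
        simp only [SimpleGraph.Walk.length_cons]
        push_cast
        linarith
    obtain ⟨p, hp⟩ := (pg_reach π hE u v).exists_walk_length_eq_dist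
    rw [← hp]
    exact hw u v p

/-- The Kantorovich norm, in the form of the statement. -/
noncomputable def kr {V : Type*} [Fintype V] (G : SimpleGraph V) (f : V → ℝ) : ℝ :=
  sSup {r : ℝ | ∃ g : V → ℝ, (∀ u v, |g u - g v| ≤ (G.dist u v : ℝ)) ∧ r = ∑ v, f v * g v}

lemma kr_nonempty {V : Type*} [Fintype V] (G : SimpleGraph V) (f : V → ℝ) :
    {r : ℝ | ∃ g : V → ℝ, (∀ u v, |g u - g v| ≤ (G.dist u v : ℝ)) ∧ r = ∑ v, f v * g v}.Nonempty :=
  ⟨0, fun _ => 0, fun u v => by simp, by simp⟩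

lemma kr_bdd {V : Type*} [Fintype V] (G : SimpleGraph V) (f : V → ℝ) (hf : ∑ v, f v = 0) :
    BddAbove
      {r : ℝ | ∃ g : V → ℝ, (∀ u v, |g u - g v| ≤ (G.dist u v : ℝ)) ∧ r = ∑ v, f v * g v} := by
  rcases isEmpty_or_nonempty V with hV | ⟨⟨v0⟩⟩
  · refine ⟨0, ?_⟩
    rintro r ⟨g, -, rfl⟩
    simp
  · refine ⟨∑ v, |f v| * (G.dist v v0 : ℝ), ?_⟩
    rintro r ⟨g, hg, rfl⟩
    have e : ∑ v, f v * g v = ∑ v, f v * (g v - g v0) := by
      simp only [mul_sub, Finset.sum_sub_distrib]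
      rw [← Finset.sum_mul, hf]; ring
    rw [e]
    refine Finset.sum_le_sum (fun v _ => (le_abs_self _).trans ?_)
    rw [abs_mul]
    exact mul_le_mul_of_nonneg_left (hg v v0) (abs_nonneg _)

lemma le_kr {V : Type*} [Fintype V] (G : SimpleGraph V) (f : V → ℝ) (hf : ∑ v, f v = 0)
    (g : V → ℝ) (hg : ∀ u v, |g u - g v| ≤ (G.dist u v : ℝ)) : ∑ v, f v * g v ≤ kr G f :=
  le_csSup (kr_bdd G f hf) ⟨g, hg, rfl⟩

lemma kr_nonneg {V : Type*} [Fintype V] (G : SimpleGraph V) (f : V → ℝ) (hf : ∑ v, f v = 0) :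
    0 ≤ kr G f := by
  simpa using le_kr G f hf (fun _ => 0) (fun u v => by simp)

lemma sum_sg_zero {V ι : Type*} [Fintype V] [Fintype ι] [DecidableEq ι] (x : ι → V → ℝ)
    (hx : ∀ i, ∑ v, x i v = 0) (s : Finset ι) : ∑ v, ∑ i, sg s i * x i v = 0 := by
  rw [Finset.sum_comm]
  refine Finset.sum_eq_zero (fun i _ => ?_)
  rw [← Finset.mul_sum, hx i, mul_zero]

lemma kr_sum_le {V ι : Type*} [Fintype V] [Fintype ι] [DecidableEq ι] (G : SimpleGraph V)
    (x : ι → V → ℝ) (hx : ∀ i, ∑ v, x i v = 0) (s : Finset ι) :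
    kr G (fun v => ∑ i, sg s i * x i v) ≤ ∑ i, kr G (x i) := by
  refine csSup_le (kr_nonempty _ _) ?_
  rintro r ⟨g, hg, rfl⟩
  simp_rw [Finset.sum_mul]
  rw [Finset.sum_comm]
  refine Finset.sum_le_sum (fun i _ => ?_)
  have := le_kr G (x i) (hx i) (fun v => sg s i * g v) (fun u v => by
    rw [← mul_sub, abs_mul, abs_sg, one_mul]; exact hg u v)
  refine le_trans (le_of_eq ?_) this
  exact Finset.sum_congr rfl (fun v _ => by ring)

/-- Uniform cotype 2 for the transportation cost spaces of good permutation graphs. -/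
theorem cotype_two (d C0 : ℕ) : ∃ C : ℝ, 0 ≤ C ∧
    ∀ (V : Type) [Fintype V] (π : Fin d → Equiv.Perm V),
      Expands Prod.fst (phd π) → Sparse Prod.fst (phd π) C0 →
      ∀ (ι : Type) [Fintype ι] [DecidableEq ι] (x : ι → V → ℝ), (∀ i, ∑ v, x i v = 0) →
        ∑ i, kr (pg π) (x i) ^ 2 ≤ C ^ 2 * ((1 / 2 ^ Fintype.card ι : ℝ) *
          ∑ s : Finset ι, kr (pg π) (fun v => ∑ i, sg s i * x i v) ^ 2) := by
  obtain ⟨C, hC, hcore⟩ := core d C0
  refine ⟨C, hC, ?_⟩
  intro V _ π hE hsp ι _ _ x hx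
  set ν : Finset ι → ℝ := fun s => kr (pg π) (fun v => ∑ i, sg s i * x i v) with hν
  have hν0 : ∀ s, 0 ≤ ν s := fun s => kr_nonneg _ _ (sum_sg_zero x hx s)
  set P : ℝ := 2 ^ Fintype.card ι with hP
  have hP0 : 0 < P := by positivity
  set M0 : ℝ := (∑ s, ν s) / P with hM0
  have hM00 : 0 ≤ M0 := div_nonneg (Finset.sum_nonneg (fun s _ => hν0 s)) hP0.le
  set T : ℝ := Real.sqrt (∑ i, kr (pg π) (x i) ^ 2) with hT
  have hT2 : T ^ 2 = ∑ i, kr (pg π) (x i) ^ 2 :=
    Real.sq_sqrt (Finset.sum_nonneg (fun i _ => sq_nonneg _))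
  have hT0 : 0 ≤ T := Real.sqrt_nonneg _
  have hmain : T ≤ C * M0 := by
    rcases hT0.eq_or_lt with h | h
    · rw [← h]; positivity
    let c : ι → ℝ := fun i => kr (pg π) (x i) / T
    have hc0 : ∀ i, 0 ≤ c i := fun i => div_nonneg (kr_nonneg _ _ (hx i)) hT0
    have hc : ∑ i, c i ^ 2 = 1 := by
      simp only [c, div_pow]
      rw [← Finset.sum_div, ← hT2, div_self (by positivity)]
    have hcT : ∑ i, c i * kr (pg π) (x i) = T := by
      have : ∀ i, c i * kr (pg π) (x i) = kr (pg π) (x i) ^ 2 / T := fun i => by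
        simp only [c]; ring
      simp_rw [this]
      rw [← Finset.sum_div, ← hT2]; field_simp
    have hS0 : 0 ≤ ∑ i, c i := Finset.sum_nonneg (fun i _ => hc0 i)
    refine le_of_forall_pos_le_add (fun ε hε => ?_)
    set η : ℝ := ε / (C + ∑ i, c i + 1) with hη
    have hη0 : 0 < η := by positivity
    have hex : ∀ i, ∃ g : V → ℝ, ArcLip Prod.fst (phd π) g ∧
        kr (pg π) (x i) - η ≤ ∑ v, x i v * g v := by
      intro i
      obtain ⟨r, ⟨g, hg, rfl⟩, hr⟩ := exists_lt_of_lt_csSup (kr_nonempty (pg π) (x i))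
        (show kr (pg π) (x i) - η < kr (pg π) (x i) by linarith)
      exact ⟨g, (lip_iff π hE g).1 hg, hr.le⟩
    choose g hg1 hg2 using hex
    have h1 := hcore V (V × Fin d) Prod.fst (phd π) (fib_fst d) (fib_phd π) hE hsp ι x hx ν
      (fun s g hg => le_kr _ _ (sum_sg_zero x hx s) g ((lip_iff π hE g).2 hg)) (M0 + η)
      (by linarith) (by
        rw [← hP, mul_add, hM0, mul_div_cancel₀ _ hP0.ne']
        have : 0 < P * η := by positivity
        linarith) g hg1 c hc
    have h2 : ∑ i, c i * (kr (pg π) (x i) - η) ≤ ∑ i, c i * ∑ v, x i v * g i v :=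
      Finset.sum_le_sum (fun i _ => mul_le_mul_of_nonneg_left (hg2 i) (hc0 i))
    simp_rw [mul_sub] at h2
    rw [Finset.sum_sub_distrib, hcT, ← Finset.sum_mul] at h2
    have h3 : η * (C + ∑ i, c i + 1) = ε := by rw [hη]; field_simp
    nlinarith
  have h4 : M0 ^ 2 ≤ (1 / P) * ∑ s, ν s ^ 2 := by
    have h5 := sq_sum_le_card_mul_sum_sq (s := (Finset.univ : Finset (Finset ι))) (f := ν)
    rw [Finset.card_univ, Fintype.card_finset] at h5
    push_cast at h5
    rw [← hP] at h5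
    rw [hM0, div_pow, div_le_iff₀ (by positivity)]
    calc _ ≤ P * ∑ s, ν s ^ 2 := h5
      _ = _ := by field_simp
  calc _ = T ^ 2 := hT2.symm
    _ ≤ (C * M0) ^ 2 := pow_le_pow_left₀ hT0 hmain 2
    _ = C ^ 2 * M0 ^ 2 := by ring
    _ ≤ _ := by gcongr

/-- The `ℓ²`-sum inherits cotype 2. -/
theorem cotype_two_sum : ∃ (π : ∀ n : ℕ, Fin 13 → Equiv.Perm (Fin n)) (C : ℝ),
    (∀ n, Expands Prod.fst (phd (π n))) ∧
    ∀ (m : ℕ) (x : Fin m → ∀ n : ℕ, Fin n → ℝ), (∀ i n, ∑ v, x i n v = 0) →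
      (∀ i, Summable (fun n => kr (pg (π n)) (x i n) ^ 2)) →
      Real.sqrt (∑ i, ∑' n, kr (pg (π n)) (x i n) ^ 2) ≤ C * Real.sqrt ((1 / 2 ^ m : ℝ) *
        ∑ s : Finset (Fin m), ∑' n, kr (pg (π n)) (fun v => ∑ i, sg s i * x i n v) ^ 2) := by
  obtain ⟨C, hC, hcot⟩ := cotype_two 13 28
  choose π hE hsp using fun n : ℕ => exists_good (Fin n)
  refine ⟨π, C, hE, fun m x hx hs => ?_⟩
  have hs2 : ∀ s : Finset (Fin m),
      Summable (fun n => kr (pg (π n)) (fun v => ∑ i, sg s i * x i n v) ^ 2) := by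
    intro s
    refine Summable.of_nonneg_of_le (fun n => sq_nonneg _) (fun n => ?_)
      ((summable_sum (s := Finset.univ) (fun i _ => hs i)).mul_left (m : ℝ))
    have h1 := kr_sum_le (pg (π n)) (fun i => x i n) (fun i => hx i n) s
    have h2 := kr_nonneg (pg (π n)) _ (sum_sg_zero (fun i => x i n) (fun i => hx i n) s)
    have h3 := sq_sum_le_card_mul_sum_sq (s := (Finset.univ : Finset (Fin m)))
      (f := fun i => kr (pg (π n)) (x i n))
    rw [Finset.card_univ, Fintype.card_fin] at h3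
    exact (pow_le_pow_left₀ h2 h1 2).trans h3
  have h1 : ∑ i, ∑' n, kr (pg (π n)) (x i n) ^ 2 ≤ C ^ 2 * ((1 / 2 ^ m : ℝ) *
      ∑ s : Finset (Fin m), ∑' n, kr (pg (π n)) (fun v => ∑ i, sg s i * x i n v) ^ 2) := by
    have a1 := hasSum_sum (s := Finset.univ) (fun i _ => (hs i).hasSum)
    have a2 := ((hasSum_sum (s := Finset.univ) (fun s _ => (hs2 s).hasSum)).mul_left
      (1 / 2 ^ m : ℝ)).mul_left (C ^ 2)
    refine hasSum_le (fun n => ?_) a1 a2
    have := hcot (Fin n) (π n) (hE n) (hsp n) (Fin m) (fun i => x i n) (fun i => hx i n)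
    rwa [Fintype.card_fin] at this
  calc _ ≤ Real.sqrt (C ^ 2 * ((1 / 2 ^ m : ℝ) *
      ∑ s : Finset (Fin m), ∑' n, kr (pg (π n)) (fun v => ∑ i, sg s i * x i n v) ^ 2)) :=
        Real.sqrt_le_sqrt h1
    _ = _ := by rw [Real.sqrt_mul (sq_nonneg C), Real.sqrt_sq hC]

end Pool.Agent.MP_60034d_an.H13
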